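import Mathlib

/-! A quantitative form of the closed range theorem, and the kernel of a geometric sum. -/

noncomputable section

namespace Pool.Agent.Lib.MP_08bba9_an.NU

open Filter Topology Finset Function

section cr

variable {E F : Type*} [NormedAddCommGroup E] [NormedSpace ℂ E] [SeminormedAddCommGroup F]
  [NormedSpace ℂ F] (T : E →L[ℂ] F) {C : ℝ} (hC : 0 ≤ C)
  (hT : ∀ g : F →L[ℂ] ℂ, ∃ g' : F →L[ℂ] ℂ, g' ∘L T = g ∘L T ∧ ‖g'‖ ≤ C * ‖g ∘L T‖)

include hC hT in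
theorem cr_approx {y : F} (hy : ∀ g : F →L[ℂ] ℂ, g ∘L T = 0 → g y = 0) :
    ∃ x, ‖y - T x‖ ≤ 1 / 2 * ‖y‖ ∧ ‖x‖ ≤ (C + 1) * ‖y‖ := by
  rcases (norm_nonneg y).eq_or_lt with h0 | h0
  · exact ⟨0, by simp [← h0], by simp [← h0]⟩
  have hR : 0 < (C + 1) * ‖y‖ := by positivity
  set R := (C + 1) * ‖y‖ with hRd
  have hm : y ∈ closure (T '' Metric.closedBall 0 R) := by
    by_contra hn
    have hc : Convex ℝ (T '' Metric.closedBall 0 R) :=
      (convex_closedBall (0 : E) R).linear_image (T.restrictScalars ℝ).toLinearMap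
    obtain ⟨g, u, h1, h2⟩ := RCLike.geometric_hahn_banach_closed_point (𝕜 := ℂ) hc.closure
      isClosed_closure hn
    have h3 : ∀ x : E, ‖x‖ ≤ R → ‖g (T x)‖ ≤ u := fun x hx => by
      obtain ⟨c, c1, c2⟩ := Complex.exists_norm_eq_mul_self (g (T x))
      have := h1 (T (c • x)) (subset_closure ⟨_, by simpa [norm_smul, c1] using hx, rfl⟩)
      rw [map_smul, map_smul, smul_eq_mul, ← c2] at this
      simpa using this.le
    have hu : 0 ≤ u := by simpa using h3 0 (by simpa using hR.le)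
    have h4 : ‖g ∘L T‖ ≤ u / R := by
      refine ContinuousLinearMap.opNorm_le_bound _ (by positivity) fun x => ?_
      rcases eq_or_ne x 0 with rfl | hx
      · simp
      have hx' : 0 < ‖x‖ := norm_pos_iff.2 hx
      have := h3 (((R / ‖x‖ : ℝ) : ℂ) • x) (by
        rw [norm_smul, Complex.norm_real, Real.norm_of_nonneg (by positivity),
          div_mul_cancel₀ _ hx'.ne'])
      rw [map_smul, map_smul, norm_smul, Complex.norm_real, Real.norm_of_nonneg (by positivity),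
        div_mul_eq_mul_div, div_le_iff₀ hx'] at this
      rw [div_mul_eq_mul_div, le_div_iff₀ hR]
      simpa [mul_comm] using this
    obtain ⟨g', k1, k2⟩ := hT g
    have k3 : g y = g' y := by
      have := hy (g - g') (by rw [ContinuousLinearMap.sub_comp, k1, sub_self])
      exact sub_eq_zero.1 this
    have k4 : ‖g y‖ ≤ C * (u / R) * ‖y‖ := by
      rw [k3]
      refine (g'.le_opNorm y).trans ?_
      gcongr
      exact k2.trans (by gcongr)
    have k5 : C * (u / R) * ‖y‖ ≤ u := by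
      rw [show C * (u / R) * ‖y‖ = u * (C * ‖y‖) / R by ring, div_le_iff₀ hR, hRd]
      gcongr
      linarith
    exact absurd (h2.trans_le ((RCLike.re_le_norm _).trans (k4.trans k5))) (lt_irrefl _)
  obtain ⟨_, ⟨x, hx, rfl⟩, h⟩ := Metric.mem_closure_iff.1 hm (1 / 2 * ‖y‖) (by positivity)
  exact ⟨x, by rw [← dist_eq_norm]; exact h.le, by simpa using hx⟩

include hC hT in
theorem cr [CompleteSpace E] [T2Space F] {y : F} (hy : ∀ g : F →L[ℂ] ℂ, g ∘L T = 0 → g y = 0) :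
    ∃ x, T x = y ∧ ‖x‖ ≤ 2 * (C + 1) * ‖y‖ := by
  let Y := {y : F // ∀ g : F →L[ℂ] ℂ, g ∘L T = 0 → g y = 0}
  choose s hs1 hs2 using fun y : Y => cr_approx T hC hT y.2
  let h : Y → Y := fun y => ⟨y.1 - T (s y), fun g hg => by
    rw [map_sub, y.2 g hg, show g (T (s y)) = 0 from DFunLike.congr_fun hg (s y), sub_self]⟩
  let y₀ : Y := ⟨y, hy⟩
  have hn : ∀ n : ℕ, ‖(h^[n] y₀).1‖ ≤ (1 / 2) ^ n * ‖y‖ := fun n => by
    induction n with
    | zero => simp [y₀]
    | succ n ih =>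
      rw [iterate_succ_apply', pow_succ', mul_assoc]
      exact (hs1 _).trans (by gcongr)
  let u n := s (h^[n] y₀)
  have ule : ∀ n, ‖u n‖ ≤ (1 / 2) ^ n * ((C + 1) * ‖y‖) := fun n =>
    (hs2 _).trans (by rw [mul_left_comm]; gcongr; exact hn n)
  have sg : Summable fun n : ℕ => (1 / 2 : ℝ) ^ n * ((C + 1) * ‖y‖) :=
    summable_geometric_two.mul_right _
  have sN : Summable fun n => ‖u n‖ := .of_nonneg_of_le (fun n => norm_nonneg _) ule sg
  have e : ∀ n : ℕ, T (∑ i ∈ range n, u i) = y - (h^[n] y₀).1 := fun n => by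
    induction n with
    | zero => simp [y₀]
    | succ n ih =>
      rw [sum_range_succ, map_add, ih, iterate_succ_apply']
      change _ = y - ((h^[n] y₀).1 - T (u n))
      abel
  refine ⟨∑' n, u n, ?_, (norm_tsum_le_tsum_norm sN).trans ((sN.tsum_le_tsum ule sg).trans ?_)⟩
  · have L₁ := (T.continuous.tendsto _).comp sN.of_norm.hasSum.tendsto_sum_nat
    have L₂ : Tendsto (fun n => y - (h^[n] y₀).1) atTop (𝓝 (y - 0)) := by
      refine tendsto_const_nhds.sub (squeeze_zero_norm hn ?_)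
      simpa using (tendsto_pow_atTop_nhds_zero_of_lt_one (r := (1 / 2 : ℝ)) (by norm_num)
        (by norm_num)).mul_const ‖y‖
    rw [sub_zero] at L₂
    exact tendsto_nhds_unique (L₁.congr e) L₂
  · rw [tsum_mul_right, tsum_geometric_two, mul_assoc]

end cr

theorem ker_geom {V : Type*} [NormedAddCommGroup V] [NormedSpace ℂ V] (t : V →L[ℂ] V) {m : ℕ}
    {f : V} (h : (∑ j ∈ range (m + 1), t ^ j) f = 0) : ∃ κ, κ - t κ = f := by
  refine ⟨(m + 1 : ℂ)⁻¹ • ∑ j ∈ range (m + 1), (∑ i ∈ range j, t ^ i) f, ?_⟩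
  have e : ∀ j, (∑ i ∈ range j, t ^ i) f - t ((∑ i ∈ range j, t ^ i) f) = f - (t ^ j) f :=
    fun j => DFunLike.congr_fun (mul_neg_geom_sum t j) f
  rw [_root_.sum_apply] at h
  rw [map_smul, ← smul_sub, map_sum, ← sum_sub_distrib, sum_congr rfl fun j _ => e j,
    sum_sub_distrib, h, sub_zero, Finset.sum_const, card_range, ← Nat.cast_smul_eq_nsmul ℂ,
    smul_smul, Nat.cast_succ, inv_mul_cancel₀ (Nat.cast_add_one_ne_zero m), one_smul]

theorem equiv_of_ctrl {E F : Type*} [SeminormedAddCommGroup E] [NormedSpace ℂ E]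
    [SeminormedAddCommGroup F] [NormedSpace ℂ F] (T : E →L[ℂ] F) (hi : ∀ x, T x = 0 → x = 0)
    {C : ℝ} (hs : ∀ y ε, 0 < ε → ∃ x, T x = y ∧ ‖x‖ ≤ C * (‖y‖ + ε)) :
    Nonempty (E ≃L[ℂ] F) := by
  have h1 : Injective T := (injective_iff_map_eq_zero T).2 hi
  let e := LinearEquiv.ofBijective T.toLinearMap
    ⟨h1, fun y => (hs y 1 one_pos).imp fun _ h => h.1⟩
  refine ⟨⟨e, T.continuous, AddMonoidHomClass.continuous_of_bound e.symm C fun y => ?_⟩⟩
  have h2 : Tendsto (fun ε : ℝ => C * (‖y‖ + ε)) (𝓝[>] 0) (𝓝 (C * (‖y‖ + 0))) :=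
    (Continuous.tendsto (by fun_prop) 0).mono_left nhdsWithin_le_nhds
  rw [add_zero] at h2
  refine ge_of_tendsto h2 (eventually_nhdsWithin_of_forall fun ε hε => ?_)
  obtain ⟨x, rfl, h⟩ := hs y ε hε
  exact (e.symm_apply_apply x).symm ▸ h

theorem norm_liftQL_le {E F : Type*} [SeminormedAddCommGroup E] [NormedSpace ℂ E]
    [SeminormedAddCommGroup F] [NormedSpace ℂ F] (S : Submodule ℂ E) (f : E →L[ℂ] F)
    (h : S ≤ f.ker) : ‖S.liftQL f h‖ ≤ ‖f‖ := by
  refine ContinuousLinearMap.opNorm_le_bound _ (norm_nonneg _) fun y => ?_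
  have h2 : Tendsto (fun ε : ℝ => ‖f‖ * (‖y‖ + ε)) (𝓝[>] 0) (𝓝 (‖f‖ * (‖y‖ + 0))) :=
    (Continuous.tendsto (by fun_prop) 0).mono_left nhdsWithin_le_nhds
  rw [add_zero] at h2
  refine ge_of_tendsto h2 (eventually_nhdsWithin_of_forall fun ε hε => ?_)
  obtain ⟨x, rfl, h⟩ := Submodule.Quotient.norm_mk_lt y hε
  exact (f.le_opNorm x).trans (by gcongr)

end Pool.Agent.Lib.MP_08bba9_an.NU
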