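import Pool.Agent.Lib.MP_08bba9_an.N.Tr
import Pool.Agent.Lib.MP_08bba9_an.N.CR

/-! The cyclic cohomology in terms of traces. -/

noncomputable section

namespace Pool.Agent.Lib.MP_08bba9_an.NU

open Fin Finset
open CY (ev)

set_option linter.unusedSectionVars false

theorem open_sub {E₁ E₂ F : Type*} [NormedAddCommGroup E₁] [NormedSpace ℂ E₁] [CompleteSpace E₁]
    [NormedAddCommGroup E₂] [NormedSpace ℂ E₂] [CompleteSpace E₂] [NormedAddCommGroup F]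
    [NormedSpace ℂ F] [CompleteSpace F] {P : Submodule ℂ E₁} {Q : Submodule ℂ E₂}
    {R : Submodule ℂ F} (hP : IsClosed (P : Set E₁)) (hQ : IsClosed (Q : Set E₂))
    (hR : IsClosed (R : Set F)) (S₁ : E₁ →L[ℂ] F) (S₂ : E₂ →L[ℂ] F)
    (h1 : ∀ x ∈ P, ∀ y ∈ Q, S₁ x + S₂ y ∈ R) (h2 : ∀ z ∈ R, ∃ x ∈ P, ∃ y ∈ Q, S₁ x + S₂ y = z) :
    ∃ C, 0 ≤ C ∧ ∀ z ∈ R, ∃ x ∈ P, ∃ y ∈ Q, S₁ x + S₂ y = z ∧ ‖x‖ ≤ C * ‖z‖ ∧ ‖y‖ ≤ C * ‖z‖ := by
  have := hP.completeSpace_coe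
  have := hQ.completeSpace_coe
  have := hR.completeSpace_coe
  let S : (P × Q) →L[ℂ] R := ((S₁ ∘L P.subtypeL).coprod (S₂ ∘L Q.subtypeL)).codRestrict _
    fun p => h1 _ p.1.2 _ p.2.2
  have hS : Function.Surjective S := fun z => by
    obtain ⟨x, hx, y, hy, h⟩ := h2 z.1 z.2
    exact ⟨(⟨x, hx⟩, ⟨y, hy⟩), Subtype.ext h⟩
  obtain ⟨C, hC, h⟩ := S.exists_preimage_norm_le hS
  refine ⟨C, hC.le, fun z hz => ?_⟩
  obtain ⟨p, h1, h2⟩ := h ⟨z, hz⟩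
  exact ⟨p.1, p.1.2, p.2, p.2.2, congrArg Subtype.val h1, (norm_fst_le p).trans h2,
    (norm_snd_le p).trans h2⟩

variable {A : Type*} [NonUnitalNormedRing A] [NormedSpace ℂ A] [IsScalarTower ℂ A A]
  [SMulCommClass ℂ A A] {n : ℕ}

theorem norm_cob_le (f : Multi A ℂ n) : ‖cob f‖ ≤ (n + 2) * ‖f‖ := by
  rw [cob_eq]
  refine (norm_sum_le _ _).trans ((sum_le_card_nsmul _ _ ‖f‖ fun i _ => ?_).trans (by simp))
  change ‖(-1 : ℂ) ^ (i : ℕ) • faceMap i f‖ ≤ _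
  rw [norm_smul, norm_pow, norm_neg, norm_one, one_pow, one_mul]
  exact MultilinearMap.mkContinuous_norm_le _ (norm_nonneg _) _

/-- the coboundary as a bounded operator -/
def cobL : Multi A ℂ n →L[ℂ] Multi A ℂ (n + 1) := 
  LinearMap.mkContinuous (E := Multi A ℂ n) (F := Multi A ℂ (n + 1)) cob (n + 2) norm_cob_le

/-- the cochain of a trace as a bounded operator -/
def trL (n : ℕ) : (A →L[ℂ] ℂ) →L[ℂ] Multi A ℂ n :=
  (ContinuousLinearMap.compContinuousMultilinearMapL ℂ _ A ℂ).flip (prodM A n)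

theorem closed_traces : IsClosed (Traces A : Set (A →L[ℂ] ℂ)) := by
  have : (Traces A : Set (A →L[ℂ] ℂ)) = ⋂ a, ⋂ b, {f | f (a * b) = f (b * a)} := by
    ext f
    simp only [Set.mem_iInter]
    rfl
  rw [this]
  exact isClosed_iInter fun a => isClosed_iInter fun b => isClosed_eq (by fun_prop) (by fun_prop)

theorem closed_cyc : IsClosed (cyclicCochains A n : Set (Multi A ℂ n)) := by
  have : (cyclicCochains A n : Set (Multi A ℂ n)) =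
      ⋂ a, {φ | φ (fun i => a (i + 1)) = (-1) ^ n * φ a} := by
    ext f
    simp only [Set.mem_iInter]
    rfl
  rw [this]
  exact isClosed_iInter fun a => isClosed_eq (by fun_prop) (by fun_prop)

theorem closed_coc : IsClosed (cocycles A n : Set (Multi A ℂ n)) :=
  closed_cyc.inter (cobL (A := A)).isClosed_ker

section
variable {Λ : (A →L[ℂ] ℂ) →L[ℂ] ℂ} (hΛ : Mix Λ) (bb : ∀ n (φ : Multi A ℂ n), cob (cob φ) = 0)
  (HH : ∀ n (φ : Multi A ℂ (n + 1)), cob φ = 0 → ∃ χ : Multi A ℂ n, cob χ = φ)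

include hΛ bb HH in
theorem ctrl (hn : Even (n + 1)) : ∃ C, 0 ≤ C ∧ ∀ φ ∈ cocycles A (n + 1), ∃ τ ∈ Traces A,
    ∃ χ ∈ cyclicCochains A n, tr τ (n + 1) + cob χ = φ ∧ ‖τ‖ ≤ C * ‖φ‖ ∧ ‖χ‖ ≤ C * ‖φ‖ := by
  refine open_sub (E₁ := A →L[ℂ] ℂ) (E₂ := Multi A ℂ n) (F := Multi A ℂ (n + 1)) closed_traces
    closed_cyc closed_coc (trL (n + 1)) cobL (fun τ hτ χ hχ => ?_) fun φ hφ => ?_
  · refine add_mem (tr_mem hτ hn) ⟨mem_cyc.2 ?_, bb _ _⟩
    have := cob_cyc χ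
    rw [mem_cyc.1 hχ, sub_self, map_zero] at this
    exact (sub_eq_zero.1 this).symm
  · obtain ⟨τ, hτ, χ, h1, h2⟩ := key hΛ bb HH _ φ hφ
    rw [show ev (n + 1) = 1 from if_pos hn, one_smul] at h2
    exact ⟨τ, hτ, χ, h1, eq_sub_iff_add_eq'.1 h2⟩

include hΛ bb HH in
theorem ctrl' (hn : Even n) : ∃ C, 0 ≤ C ∧ ∀ φ ∈ cocycles A n, ∃ τ ∈ Traces A,
    φ - tr τ n ∈ coboundaries A n ∧ ‖τ‖ ≤ C * ‖φ‖ := by
  cases n with
  | zero =>
    refine ⟨1, zero_le_one, fun φ hφ => ?_⟩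
    obtain ⟨τ, hτ, h⟩ := key hΛ bb HH _ φ hφ
    rw [show ev 0 = 1 from if_pos hn, one_smul] at h
    refine ⟨τ, hτ, h, τ.opNorm_le_bound (by positivity) fun a => ?_⟩
    have := φ.le_opNorm fun _ => a
    rw [sub_eq_zero.1 ((Submodule.mem_bot ℂ).1 h)] at this ⊢
    simpa [tr_apply, prodM_zero] using this
  | succ n =>
    obtain ⟨C, hC, h⟩ := ctrl hΛ bb HH hn
    refine ⟨C, hC, fun φ hφ => ?_⟩
    obtain ⟨τ, hτ, χ, h1, h2, h3, -⟩ := h φ hφ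
    exact ⟨τ, hτ, ⟨χ, h1, eq_sub_iff_add_eq'.2 h2⟩, h3⟩

include hΛ bb HH in
theorem coh_even (hn : Even n) : Nonempty (CyclicCohomology A n ≃L[ℂ] Traces A) := by
  obtain ⟨C, hC, h⟩ := ctrl' hΛ bb HH hn
  let T : Traces A →L[ℂ] CyclicCohomology A n := Submodule.mkQL _ ∘L
    (trL n ∘L (Traces A).subtypeL).codRestrict (cocycles A n) fun τ => tr_mem τ.2 hn
  suffices Nonempty (Traces A ≃L[ℂ] CyclicCohomology A n) from this.map fun e => e.symm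
  refine equiv_of_ctrl (E := Traces A) (F := CyclicCohomology A n) T (fun τ h0 => Subtype.ext
    (uniq hΛ HH τ.2 n hn ((Submodule.Quotient.mk_eq_zero
      ((coboundaries A n).submoduleOf (cocycles A n))).1 h0))) (C := C) fun y ε hε => ?_
  obtain ⟨φ, rfl, h1⟩ := Submodule.Quotient.norm_mk_lt y hε
  obtain ⟨τ, hτ, h2, h3⟩ := h φ.1 φ.2
  exact ⟨⟨τ, hτ⟩, ((Submodule.Quotient.eq ((coboundaries A n).submoduleOf (cocycles A n))
    (x := φ)).2 h2).symm,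
    h3.trans (mul_le_mul_of_nonneg_left h1.le hC)⟩

include hΛ bb HH in
theorem coh_odd (hn : Odd n) : Subsingleton (CyclicCohomology A n) :=
  Submodule.Quotient.subsingleton_iff.2 (eq_top_iff.2 fun φ _ => by
    obtain ⟨τ, -, hc⟩ := key hΛ bb HH n φ φ.2
    rwa [ev, if_neg (Nat.not_even_iff_odd.2 hn), zero_smul, sub_zero] at hc)

end

end Pool.Agent.Lib.MP_08bba9_an.NU
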