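import Pool.Agent.Lib.MP_08bba9_an.N.Mix
import Pool.Agent.Lib.MP_08bba9_an.CycA

/-! The operators of the cyclic bicomplex on bounded cochains of an algebra without unit. -/

noncomputable section

namespace Pool.Agent.Lib.MP_08bba9_an.NU

open Fin Finset

set_option linter.unusedSectionVars false

section tuples

variable {A : Type*} [Semigroup A] {n : ℕ}

/-- the bar coboundary of a plain function -/
def dp (f : (Fin (n + 1) → A) → ℂ) (a : Fin (n + 2) → A) : ℂ :=
  ∑ i : Fin (n + 1), (-1 : ℂ) ^ (i : ℕ) • f (contractNth i.castSucc (· * ·) a)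

theorem dp_zero (f : (Fin 1 → A) → ℂ) (x : A) (a : Fin 1 → A) :
    dp f (cons x a) = f (cons (x * a 0) (tail a)) := by
  rw [dp, Fin.sum_univ_one, castSucc_zero, contract_zero]
  simp

theorem dp_cons (f : (Fin (n + 2) → A) → ℂ) (x : A) (a : Fin (n + 2) → A) :
    dp f (cons x a) = f (cons (x * a 0) (tail a)) - dp (fun l => f (cons x l)) a := by
  rw [dp, dp, Fin.sum_univ_succ, castSucc_zero, contract_zero, sub_eq_add_neg, ← sum_neg_distrib]
  simp only [← succ_castSucc, contract_succ, val_succ, pow_succ, val_zero, pow_zero, one_smul,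
    mul_neg_one, neg_smul]

theorem dp_left (f : (Fin (n + 1) → A) → ℂ) (x : A) (a : Fin (n + 2) → A) :
    dp (fun l => f (cons (x * l 0) (tail l))) a = dp f (cons (x * a 0) (tail a)) := by
  refine sum_congr rfl fun i _ => ?_
  rw [← cons_self_tail a]
  refine Fin.cases ?_ (fun i => ?_) i
  · simp only [castSucc_zero, contract_zero, cons_zero, tail_cons, mul_assoc]
  · simp only [← succ_castSucc, contract_succ, cons_zero, tail_cons]

theorem dp_dp (f : (Fin (n + 1) → A) → ℂ) (a : Fin (n + 3) → A) : dp (dp f) a = 0 := by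
  induction n with
  | zero =>
    rw [← cons_self_tail a, dp_cons, ← dp_left]
    simp only [dp_zero, sub_self]
  | succ n ih =>
    have := ih (fun l => f (cons (a 0) l)) (tail a)
    rw [← cons_self_tail a, dp_cons, ← dp_left]
    simp only [dp_cons]
    rw [dp] at this
    rw [dp, dp]
    simp only [smul_sub, sum_sub_distrib, this, sub_zero, sub_self]

end tuples

variable {A : Type*} [NonUnitalNormedRing A] [NormedSpace ℂ A] [IsScalarTower ℂ A A]
  [SMulCommClass ℂ A A] {n : ℕ}

/-- the signed faces -/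
def fa (i : Fin (n + 2)) : Multi A ℂ n →ₗ[ℂ] Multi A ℂ (n + 1) where
  toFun f := (-1 : ℂ) ^ (i : ℕ) • faceMap i f
  map_add' f g := by ext a; simp [mul_add]
  map_smul' c f := by ext a; simp [mul_left_comm c]

/-- the bar coboundary -/
def bp : Multi A ℂ n →ₗ[ℂ] Multi A ℂ (n + 1) := ∑ i : Fin (n + 1), fa i.castSucc

/-- the norm operator -/
def nm : Module.End ℂ (Multi A ℂ n) := ∑ j ∈ range (n + 1), cyc ^ j

theorem bp_apply (f : Multi A ℂ n) (a) : bp f a = dp f a := by
  simp [bp, fa, dp, face_castSucc]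

theorem bp_bp (f : Multi A ℂ n) : bp (bp f) = 0 := by
  ext a
  rw [bp_apply, show (bp f : _ → ℂ) = dp f from funext (bp_apply f), dp_dp]
  rfl

theorem bp_exact {Λ : (A →L[ℂ] ℂ) →L[ℂ] ℂ} (hΛ : Mix Λ) {ω : Multi A ℂ (n + 1)} (h : bp ω = 0) :
    ∃ ψ, bp ψ = ω := by
  refine ⟨con Λ ω, ?_⟩
  ext a
  have h1 : hd ω (tail a) ∘L (ContinuousLinearMap.mul ℂ A).flip (a 0) =
      ∑ i : Fin (n + 1), (-1 : ℂ) ^ (i : ℕ) • hd ω (contractNth i.castSucc (· * ·) a) := by
    ext e
    have := bp_apply ω (cons e a)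
    rw [h, dp_cons] at this
    simpa [dp] using (sub_eq_zero.1 this.symm)
  have h2 := (hΛ (hd ω (tail a)) (a 0)).2
  rw [h1, map_sum, hd_apply, cons_self_tail] at h2
  rw [bp_apply, ← h2]
  simp [dp, con_apply]

theorem bp_inj {Λ : (A →L[ℂ] ℂ) →L[ℂ] ℂ} (hΛ : Mix Λ) {ω : Multi A ℂ 0} (h : bp ω = 0) :
    ω = 0 := by
  ext a
  let f := (ContinuousMultilinearMap.ofSubsingleton ℂ A ℂ (0 : Fin 1)).symm ω
  have e : ∀ a : Fin 1 → A, ω a = f (a 0) := fun a =>
    congrArg ω (funext fun i => congrArg a (Subsingleton.elim _ _))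
  have h1 : f ∘L (ContinuousLinearMap.mul ℂ A).flip (a 0) = 0 := by
    ext x
    have := bp_apply ω (cons x a)
    rw [h, dp_zero, e] at this
    exact this.symm
  have h2 := (hΛ f (a 0)).2
  rw [h1, map_zero] at h2
  rw [e, ← h2]
  rfl

theorem cob_eq (f : Multi A ℂ n) : cob f = ∑ i : Fin (n + 2), fa i f := rfl

theorem cob_cyc (f : Multi A ℂ n) : cob f - cyc (cob f) = bp (f - cyc f) := by
  rw [cob_sub_cyc, bp, LinearMap.sum_apply]
  rfl

theorem cyc_pow (k : ℕ) (f : Multi A ℂ n) (a) :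
    (cyc ^ k) f a = (-1 : ℂ) ^ (n * k) • f fun i => a (i - k • 1) := by
  induction k generalizing a with
  | zero => simp
  | succ k ih =>
    rw [pow_succ', Module.End.mul_apply, cyc_apply, ih, smul_smul, ← pow_add, succ_nsmul]
    simp only [sub_sub, mul_add, mul_one, add_comm]

theorem cyc_per : (cyc : Module.End ℂ (Multi A ℂ n)) ^ (n + 1) = 1 := by
  ext f a
  have : (n + 1) • (1 : Fin (n + 1)) = 0 := by simpa using card_nsmul_eq_zero (x := (1 : Fin (n + 1)))
  rw [cyc_pow, this, (Nat.even_mul_succ_self n).neg_one_pow, one_smul]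
  exact congrArg f (funext fun i => congrArg a (sub_zero i))

theorem cyc_nm (f : Multi A ℂ n) : cyc (nm f) = nm f := by
  have := mul_neg_geom_sum (cyc : Module.End ℂ (Multi A ℂ n)) (n + 1)
  rw [cyc_per, sub_self] at this
  exact (sub_eq_zero.1 (LinearMap.congr_fun this f)).symm

theorem nm_cyc (f : Multi A ℂ n) : nm (cyc f) = nm f := by
  have := geom_sum_mul_neg (cyc : Module.End ℂ (Multi A ℂ n)) (n + 1)
  rw [cyc_per, sub_self, mul_sub, mul_one] at this
  exact (sub_eq_zero.1 (LinearMap.congr_fun this f)).symm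

theorem nm_pow (k : ℕ) (f : Multi A ℂ n) : nm ((cyc ^ k) f) = nm f := by
  induction k with
  | zero => rfl
  | succ k ih => rw [pow_succ', Module.End.mul_apply, nm_cyc, ih]

theorem pow_fix {f : Multi A ℂ n} (h : cyc f = f) (k : ℕ) : (cyc ^ k) f = f := by
  induction k with
  | zero => rfl
  | succ k ih => rw [pow_succ', Module.End.mul_apply, ih, h]

theorem nm_fix {f : Multi A ℂ n} (h : cyc f = f) : nm f = (n + 1 : ℂ) • f := by
  rw [nm, LinearMap.sum_apply, sum_congr rfl fun k _ => pow_fix h k, Finset.sum_const, card_range,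
    ← Nat.cast_smul_eq_nsmul ℂ, Nat.cast_succ]

theorem pow_fa (i : Fin (n + 2)) (f : Multi A ℂ n) :
    (cyc ^ (i : ℕ)) (fa i f) = fa 0 ((cyc ^ (i : ℕ)) f) := by
  induction i using Fin.induction generalizing f with
  | zero => rfl
  | succ i ih =>
    rw [val_succ, pow_succ, pow_succ, Module.End.mul_apply, Module.End.mul_apply, ← val_castSucc,
      ← ih]
    congr 1
    ext a
    simp only [cyc_apply, fa, LinearMap.coe_mk, AddHom.coe_mk, smul_apply,
      faceMap_apply, face_succ_rot, smul_smul, val_succ, val_castSucc]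
    congr 1
    ring

theorem nm_fa (i : Fin (n + 2)) (f : Multi A ℂ n) : nm (fa i f) = nm (fa 0 ((cyc ^ (i : ℕ)) f)) := by
  rw [← pow_fa, nm_pow]

theorem nm_bp (f : Multi A ℂ n) : nm (bp f) = cob (nm f) := by
  have h1 : nm (bp f) = nm (fa 0 (nm f)) := by
    rw [bp, LinearMap.sum_apply, map_sum]
    conv_rhs => rw [nm.eq_def (n := n), LinearMap.sum_apply, map_sum, map_sum, sum_range]
    exact sum_congr rfl fun i _ => nm_fa _ _
  have h2 : cyc (cob (nm f)) = cob (nm f) := by
    have := cob_cyc (nm f)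
    rw [cyc_nm, sub_self, map_zero] at this
    exact (sub_eq_zero.1 this).symm
  have h3 := nm_fix h2
  rw [cob_eq, map_sum, sum_congr rfl fun i _ => nm_fa i _] at h3
  simp only [pow_fix (cyc_nm f), Finset.sum_const, card_univ, Fintype.card_fin] at h3
  rw [← Nat.cast_smul_eq_nsmul ℂ, ← Nat.cast_succ] at h3
  exact h1.trans (smul_right_injective _ (Nat.cast_ne_zero.2 (Nat.succ_ne_zero _)) h3)

theorem ker_nm {f : Multi A ℂ n} (h : nm f = 0) : ∃ κ, κ - cyc κ = f := by
  refine ⟨(n + 1 : ℂ)⁻¹ • ∑ j ∈ range (n + 1), (∑ i ∈ range j, cyc ^ i) f, ?_⟩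
  have e : ∀ j, (∑ i ∈ range j, cyc ^ i) f - cyc ((∑ i ∈ range j, cyc ^ i) f) = f - (cyc ^ j) f :=
    fun j => LinearMap.congr_fun (mul_neg_geom_sum (cyc : Module.End ℂ (Multi A ℂ n)) j) f
  rw [nm, LinearMap.sum_apply] at h
  rw [map_smul, ← smul_sub, map_sum, ← sum_sub_distrib, sum_congr rfl fun j _ => e j,
    sum_sub_distrib, h, sub_zero, Finset.sum_const, card_range, ← Nat.cast_smul_eq_nsmul ℂ, smul_smul,
    Nat.cast_succ, inv_mul_cancel₀ (Nat.cast_add_one_ne_zero n), one_smul]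

theorem mem_cyc {f : Multi A ℂ n} : f ∈ cyclicCochains A n ↔ cyc f = f := by
  constructor
  · intro h
    ext a
    have := h fun i => a (i - 1)
    rw [cyc_apply, smul_eq_mul, ← this]
    exact congrArg f (funext fun i => congrArg a (add_sub_cancel_right i 1))
  · intro h a
    conv_lhs => rw [← h, cyc_apply]
    simp

end Pool.Agent.Lib.MP_08bba9_an.NU
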