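import Pool.Agent.Lib.MP_08bba9_an.N.Face

/-! Banach cyclic cohomology and homology and the trace description, for algebras that need not
have a unit. -/

noncomputable section

namespace Pool.Agent.Lib.MP_08bba9_an.NU

open scoped TensorProduct

variable (A : Type*) [NonUnitalNormedRing A] [NormedSpace ℂ A] [IsScalarTower ℂ A A]
  [SMulCommClass ℂ A A]

/-- The space `T(A)` of bounded traces. -/
def Traces : Submodule ℂ (A →L[ℂ] ℂ) where
  carrier := {f | ∀ a b, f (a * b) = f (b * a)}
  add_mem' hf hg a b := by simp [hf a b, hg a b]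
  zero_mem' _ _ := rfl
  smul_mem' c f hf a b := by simp [hf a b]

/-- The norm closure of `[A, A]`. -/
def commClosure : Submodule ℂ A :=
  (Submodule.span ℂ {x | ∃ a b : A, x = a * b - b * a}).topologicalClosure

/-- Cyclic cochains: `φ(a₁, …, aₙ, a₀) = (-1)^n φ(a₀, …, aₙ)`. -/
def cyclicCochains (n : ℕ) : Submodule ℂ (Multi A ℂ n) where
  carrier := {φ | ∀ a, φ (fun i => a (i + 1)) = (-1) ^ n * φ a}
  add_mem' hf hg a := by simp [hf a, hg a, mul_add]
  zero_mem' _ := by simp
  smul_mem' c f hf a := by simp [hf a, mul_left_comm c]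

/-- Cyclic cocycles. -/
def cocycles (n : ℕ) : Submodule ℂ (Multi A ℂ n) := cyclicCochains A n ⊓ LinearMap.ker cob

/-- Cyclic coboundaries. -/
def coboundaries : ∀ n : ℕ, Submodule ℂ (Multi A ℂ n)
  | 0 => ⊥
  | n + 1 => (cyclicCochains A n).map cob

/-- Banach cyclic cohomology, with the quotient topology. -/
abbrev CyclicCohomology (n : ℕ) := cocycles A n ⧸ (coboundaries A n).submoduleOf (cocycles A n)

/-- The completed projective tensor power of `n + 1` copies of `A`. -/
abbrev Chain (n : ℕ) := UniformSpace.Completion (⨂[ℂ] _ : Fin (n + 1), A)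

/-- The canonical multilinear map `(a₀, …, aₙ) ↦ a₀ ⊗ ⋯ ⊗ aₙ`. -/
def tens (n : ℕ) : Multi A (Chain A n) n :=
  UniformSpace.Completion.toComplL.compContinuousMultilinearMap (PiTensorProduct.tprodL ℂ)

variable {A} in
/-- The bounded operator on the tensor power defined by a bounded multilinear map. -/
def lin {F : Type*} [NormedAddCommGroup F] [NormedSpace ℂ F] [CompleteSpace F] {n : ℕ}
    (f : Multi A F n) : Chain A n →L[ℂ] F :=
  (PiTensorProduct.liftIsometry ℂ _ F f).fromCompletion

/-- The Hochschild boundary `b`. -/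
def bd (n : ℕ) : Chain A (n + 1) →L[ℂ] Chain A n := lin (cob (tens A n))

/-- The range of `1 - t`, with `t(a₀ ⊗ ⋯ ⊗ aₙ) = (-1)^n aₙ ⊗ a₀ ⊗ ⋯ ⊗ aₙ₋₁`. -/
def cycRange (n : ℕ) : Submodule ℂ (Chain A n) := (1 - lin (cyc (tens A n))).range

section lemmas

variable {A} {F : Type*} [NormedAddCommGroup F] [NormedSpace ℂ F] [CompleteSpace F] {n : ℕ}

@[simp] theorem lin_tens (f : Multi A F n) (a : Fin (n + 1) → A) : lin f (tens A n a) = f a := by
  simp [lin, tens]

omit [CompleteSpace F] in
theorem chain_ext {L L' : Chain A n →L[ℂ] F} (h : ∀ a, L (tens A n a) = L' (tens A n a)) :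
    L = L' := by
  ext x
  induction x using UniformSpace.Completion.induction_on with
  | hp => exact isClosed_eq L.continuous L'.continuous
  | ih x =>
    induction x using PiTensorProduct.induction_on with
    | smul_tprod c a => simpa [tens] using congrArg (c • ·) (h a)
    | add x y hx hy => simp [UniformSpace.Completion.coe_add, hx, hy]

theorem bd_cycRange : cycRange A (n + 1) ≤ (cycRange A n).comap (bd A n).toLinearMap := by
  rintro _ ⟨x, rfl⟩
  refine ⟨lin (∑ i : Fin (n + 1), (-1 : ℂ) ^ (i : ℕ) • faceMap i.castSucc (tens A n)) x, ?_⟩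
  refine DFunLike.congr_fun (chain_ext (L := (1 - lin (cyc (tens A n))) ∘L _)
    (L' := bd A n ∘L (1 - lin (cyc (tens A (n + 1))))) fun a => ?_) x
  have := DFunLike.congr_fun (cob_sub_cyc (tens A n)) a
  simp [cyc_apply, bd] at this ⊢
  simp [this, smul_sub]

end lemmas

/-- The predual of the cyclic complex: the tensor power modulo the range of `1 - t`. -/
abbrev CycChain (n : ℕ) := Chain A n ⧸ cycRange A n

/-- The boundary of the cyclic complex. -/
def cycBd (n : ℕ) : CycChain A (n + 1) →ₗ[ℂ] CycChain A n :=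
  (cycRange A (n + 1)).mapQ (cycRange A n) (bd A n).toLinearMap bd_cycRange

/-- Cyclic cycles. -/
def cycles : ∀ n : ℕ, Submodule ℂ (CycChain A n)
  | 0 => ⊤
  | n + 1 => LinearMap.ker (cycBd A n)

/-- Banach cyclic homology in the Hausdorff sense. -/
abbrev CyclicHomology (n : ℕ) :=
  cycles A n ⧸ (LinearMap.range (cycBd A n)).topologicalClosure.submoduleOf (cycles A n)

/-- The trace description of the cyclic cohomology and homology. -/
def TraceDescription : Prop := ∀ n : ℕ,
  (Even n → Nonempty (CyclicCohomology A n ≃L[ℂ] Traces A) ∧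
    Nonempty (CyclicHomology A n ≃L[ℂ] A ⧸ commClosure A)) ∧
  (Odd n → Subsingleton (CyclicCohomology A n) ∧ Subsingleton (CyclicHomology A n))

end Pool.Agent.Lib.MP_08bba9_an.NU
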