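import Pool.Agent.Lib.MP_08bba9_an.N.Coh
import Pool.Agent.Lib.MP_08bba9_an.Cyc

/-! The cyclic homology in terms of the quotient by commutators, and the trace description. -/

noncomputable section

namespace Pool.Agent.Lib.MP_08bba9_an.NU

open Fin Finset PiTensorProduct
open CY (ev mem_closure_dual closure_ker)

set_option linter.unusedSectionVars false

theorem equiv_quot {V F : Type*} [SeminormedAddCommGroup V] [NormedSpace ℂ V]
    [SeminormedAddCommGroup F] [NormedSpace ℂ F] (Z B : Submodule ℂ V)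
    (T : (Z ⧸ B.submoduleOf Z) →L[ℂ] F) (hi : ∀ z : Z, T (Submodule.Quotient.mk z) = 0 → z.1 ∈ B)
    {C : ℝ} (hs : ∀ y ε, 0 < ε → ∃ z : Z, T (Submodule.Quotient.mk z) = y ∧
      ‖z.1‖ ≤ C * (‖y‖ + ε)) : Nonempty ((Z ⧸ B.submoduleOf Z) ≃L[ℂ] F) := by
  refine equiv_of_ctrl T (fun z h => ?_) (C := C) fun y ε hε => ?_
  · obtain ⟨z, rfl⟩ := Submodule.Quotient.mk_surjective _ z
    exact (Submodule.Quotient.mk_eq_zero _).2 (hi z h)
  · obtain ⟨z, h1, h2⟩ := hs y ε hε
    exact ⟨_, h1, (Submodule.Quotient.norm_mk_le _ z).trans h2⟩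

variable {A : Type*} [NonUnitalNormedRing A] [NormedSpace ℂ A] [IsScalarTower ℂ A A]
  [SMulCommClass ℂ A A] {n : ℕ}

theorem lin_le (g : Multi A ℂ n) (x : Chain A n) : ‖lin g x‖ ≤ ‖g‖ * ‖x‖ := by
  induction x using UniformSpace.Completion.induction_on with
  | hp => exact isClosed_le (by fun_prop) (by fun_prop)
  | ih x => simpa [lin] using norm_eval_le_projectiveSeminorm g x

theorem lin_zero : lin (0 : Multi A ℂ n) = 0 := chain_ext fun a => by simp

theorem lin_add (f g : Multi A ℂ n) : lin (f + g) = lin f + lin g := chain_ext fun a => by simp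

theorem lin_smul (c : ℂ) (f : Multi A ℂ n) : lin (c • f) = c • lin f := chain_ext fun a => by simp

theorem lin_comp (g : Chain A n →L[ℂ] ℂ) : lin (g.compContinuousMultilinearMap (tens A n)) = g :=
  chain_ext fun a => by simp

theorem lin_cob (χ : Multi A ℂ n) : lin (cob χ) = lin χ ∘L bd A n :=
  chain_ext fun a => by simp [bd, cob_apply]

theorem lin_cyc' (χ : Multi A ℂ n) : lin (cyc χ) = lin χ ∘L lin (cyc (tens A n)) :=
  chain_ext fun a => by simp [cyc_apply]

theorem lin_cyc {χ : Multi A ℂ n} (h : cyc χ = χ) {x : Chain A n} (hx : x ∈ cycRange A n) :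
    lin χ x = 0 := by
  obtain ⟨y, rfl⟩ := hx
  have := DFunLike.congr_fun (lin_cyc' χ) y
  rw [h] at this
  exact (map_sub _ _ _).trans (sub_eq_zero.2 this)

theorem lin_pow (j : ℕ) (χ : Multi A ℂ n) :
    lin ((cyc ^ j) χ) = lin χ ∘L lin (cyc (tens A n)) ^ j := by
  induction j with
  | zero => rfl
  | succ j ih => rw [pow_succ', Module.End.mul_apply, lin_cyc', ih, pow_succ]; rfl

variable (A n) in
/-- the norm operator on chains -/
def nc : Chain A n →L[ℂ] Chain A n := ∑ j ∈ range (n + 1), lin (cyc (tens A n)) ^ j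

theorem lin_nm (χ : Multi A ℂ n) : lin (nm χ) = lin χ ∘L nc A n := by
  rw [nc, ContinuousLinearMap.comp_finsetSum, ← sum_congr rfl fun j _ => lin_pow j χ]
  exact chain_ext fun a => by simp [nm]

theorem lin_cobd {ρ : Multi A ℂ n} (h : ρ ∈ coboundaries A n) {x : Chain A n}
    (hx : Submodule.Quotient.mk x ∈ cycles A n) : lin ρ x = 0 := by
  cases n with
  | zero =>
    rw [(Submodule.mem_bot ℂ).1 h, lin_zero]
    rfl
  | succ n =>
    obtain ⟨χ, h1, rfl⟩ := h
    rw [lin_cob]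
    exact lin_cyc (mem_cyc.1 h1) ((Submodule.Quotient.mk_eq_zero _).1 hx)

theorem span_iff (g : A →L[ℂ] ℂ) :
    (∀ x ∈ Submodule.span ℂ {x | ∃ a b : A, x = a * b - b * a}, g x = 0) ↔ g ∈ Traces A :=
  ⟨fun h a b => sub_eq_zero.1 (map_sub g _ _ ▸ h _ (Submodule.subset_span ⟨a, b, rfl⟩)),
    fun h => Submodule.span_le (p := g.ker).2 (by
      rintro _ ⟨a, b, rfl⟩
      exact (map_sub g _ _).trans (sub_eq_zero.2 (h a b)))⟩

theorem mem_comm {a : A} : a ∈ commClosure A ↔ ∀ τ ∈ Traces A, τ a = 0 :=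
  ⟨fun h τ hτ => closure_ker τ ((span_iff τ).2 hτ) h,
    fun h => mem_closure_dual _ fun g hg => h g ((span_iff g).1 hg)⟩

theorem comp_trace (g : (A ⧸ commClosure A) →L[ℂ] ℂ) : g ∘L (commClosure A).mkQL ∈ Traces A :=
  (span_iff _).1 fun x hx => by
    change g (Submodule.Quotient.mk x) = 0
    rw [(Submodule.Quotient.mk_eq_zero (commClosure A)).2 (Submodule.le_topologicalClosure _ hx),
      map_zero]

theorem lin_tr [CompleteSpace A] (τ : A →L[ℂ] ℂ) : lin (tr τ n) = τ ∘L lin (prodM A n) :=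
  chain_ext fun a => by simp [tr_apply]

section
variable {Λ : (A →L[ℂ] ℂ) →L[ℂ] ℂ} (hΛ : Mix Λ) (bb : ∀ n (φ : Multi A ℂ n), cob (cob φ) = 0)
  (HH : ∀ n (φ : Multi A ℂ (n + 1)), cob φ = 0 → ∃ χ : Multi A ℂ n, cob χ = φ)

include hΛ bb HH in
theorem hom_mem {x : Chain A n} (hx : Submodule.Quotient.mk x ∈ cycles A n)
    (h0 : ∀ τ ∈ Traces A, lin (ev n • tr τ n) x = 0) :
    Submodule.Quotient.mk x ∈ (LinearMap.range (cycBd A n)).topologicalClosure := by
  refine mem_closure_dual _ fun g hg => ?_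
  let φ := (g ∘L (cycRange A n).mkQL).compContinuousMultilinearMap (tens A n)
  have e : ∀ a, φ a = g (Submodule.Quotient.mk (tens A n a)) := fun _ => rfl
  obtain ⟨τ, hτ, hc⟩ := key hΛ bb HH n φ ⟨mem_cyc.2 (ContinuousMultilinearMap.ext fun a => by
      rw [e, (Submodule.Quotient.eq _).2 (show tens A n a - lin (cyc (tens A n)) (tens A n a) ∈
        cycRange A n from ⟨tens A n a, rfl⟩), lin_tens, cyc_apply, cyc_apply,
        Submodule.Quotient.mk_smul, map_smul, e]),
    ContinuousMultilinearMap.ext fun a => by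
      have := hg _ ⟨Submodule.Quotient.mk (tens A (n + 1) a), rfl⟩
      change (g ∘L (cycRange A n).mkQL) (bd A n _) = 0 at this
      rw [bd, lin_tens, cob_apply, map_sum] at this
      simp only [map_smul] at this
      rw [cob_apply]
      exact this⟩
  have h2 := lin_cobd hc hx
  rw [chain_ext (L := lin _) (L' := g ∘L (cycRange A n).mkQL - lin (ev n • tr τ n))
    fun a => by rw [lin_tens]; simp [e]] at h2
  simpa [h0 τ hτ] using h2

include hΛ bb HH in
theorem hom_odd (hn : Odd n) : Subsingleton (CyclicHomology A n) :=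
  Submodule.Quotient.subsingleton_iff.2 (eq_top_iff.2 fun ⟨z, hz⟩ _ => by
    obtain ⟨x, rfl⟩ := Submodule.Quotient.mk_surjective _ z
    refine hom_mem hΛ bb HH hz fun τ _ => ?_
    rw [ev, if_neg (Nat.not_even_iff_odd.2 hn), zero_smul, lin_zero]
    rfl)

variable [CompleteSpace A]

include hΛ bb HH in
theorem hom_ctrl (hn : Even n) : ∃ C, 0 ≤ C ∧ ∀ a : A, ∃ x : Chain A n,
    Submodule.Quotient.mk x ∈ cycles A n ∧ lin (prodM A n) x - a ∈ commClosure A ∧
      ‖x‖ ≤ C * ‖a‖ := by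
  cases n with
  | zero =>
    refine ⟨‖tens A 0‖, norm_nonneg _, fun a => ⟨tens A 0 fun _ => a, trivial, ?_, ?_⟩⟩
    · rw [lin_tens, prodM_zero, sub_self]
      exact zero_mem _
    · simpa using (tens A 0).le_opNorm fun _ => a
  | succ n =>
    obtain ⟨C, hC, h⟩ := ctrl hΛ bb HH hn
    have : IsClosed (commClosure A : Set A) := Submodule.isClosed_topologicalClosure _
    let T : Chain A (n + 1) →L[ℂ] (A ⧸ commClosure A) × Chain A n :=
      ((commClosure A).mkQL ∘L lin (prodM A (n + 1))).prod (nc A n ∘L bd A n)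
    have hT : ∀ g : ((A ⧸ commClosure A) × Chain A n) →L[ℂ] ℂ, ∃ χ, cyc χ = χ ∧ g ∘L T =
        lin (tr ((g ∘L .inl ℂ _ _) ∘L (commClosure A).mkQL) (n + 1) + cob χ) := fun g => by
      refine ⟨nm ((g ∘L .inr ℂ _ _).compContinuousMultilinearMap (tens A n)), cyc_nm _, ?_⟩
      rw [lin_add, lin_tr, lin_cob, lin_nm, lin_comp]
      ext x
      exact (congrArg g (by simp [T])).trans (map_add g _ _)
    have hc : ∀ χ : Multi A ℂ n, cyc χ = χ → cob χ ∈ cocycles A (n + 1) := fun χ hχ => by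
      refine ⟨mem_cyc.2 ?_, bb _ _⟩
      have := cob_cyc χ
      rw [hχ, sub_self, map_zero] at this
      exact (sub_eq_zero.1 this).symm
    have hl : ∀ φ : Multi A ℂ (n + 1), ‖φ‖ ≤ ‖tens A (n + 1)‖ * ‖lin φ‖ := fun φ => by
      rw [mul_comm]
      refine le_of_eq_of_le (congrArg _ ?_) ((lin φ).norm_compContinuousMultilinearMap_le _)
      ext a
      simp
    refine ⟨2 * (2 * C * ‖tens A (n + 1)‖ + 1), by positivity, fun a => ?_⟩
    refine (cr T (C := 2 * C * ‖tens A (n + 1)‖) (by positivity) (fun g => ?_)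
      (y := (Submodule.Quotient.mk a, 0)) fun g hg => ?_).imp fun x ⟨h1, h2⟩ =>
        ⟨(Submodule.Quotient.mk_eq_zero _).2 (ker_geom _ (congrArg Prod.snd h1)),
          (Submodule.Quotient.eq _).1 (congrArg Prod.fst h1), h2.trans (mul_le_mul_of_nonneg_left
            (by simpa using Submodule.Quotient.norm_mk_le _ a) (by positivity))⟩
    · obtain ⟨χ₀, k1, k2⟩ := hT g
      obtain ⟨τ, hτ, χ, k3, k4, k5, k6⟩ := h _ (add_mem (tr_mem (comp_trace _) hn) (hc _ k1))
      rw [← k4] at k2 k5 k6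
      have k7 := hl (tr τ (n + 1) + cob χ)
      rw [← k2] at k7
      have k8 := norm_liftQL_le (commClosure A) τ fun a ha => mem_comm.1 ha τ hτ
      refine ⟨((commClosure A).liftQL τ fun a ha => mem_comm.1 ha τ hτ).coprod
        (lin ((n + 1 : ℂ)⁻¹ • χ)), ?_, ContinuousLinearMap.opNorm_le_bound _ (by positivity)
          fun p => ?_⟩
      · rw [k2, lin_add, lin_tr, lin_cob]
        have := lin_nm ((n + 1 : ℂ)⁻¹ • χ)
        rw [map_smul, nm_fix (mem_cyc.1 k3), smul_smul,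
          inv_mul_cancel₀ (Nat.cast_add_one_ne_zero n), one_smul] at this
        rw [this]
        rfl
      · have k9 : ‖(n + 1 : ℂ)⁻¹ • χ‖ ≤ ‖χ‖ := by
          rw [norm_smul, norm_inv, ← Nat.cast_succ, Complex.norm_natCast]
          exact mul_le_of_le_one_left (norm_nonneg _) (inv_le_one_of_one_le₀ (by simp))
        rw [ContinuousLinearMap.coprod_apply]
        grw [norm_add_le, ContinuousLinearMap.le_opNorm, lin_le, k8, k9, k5, k6, k7, norm_fst_le, norm_snd_le]
        exact le_of_eq (by ring)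
    · obtain ⟨χ, k1, k2⟩ := hT g
      have k3 := hl (tr ((g ∘L .inl ℂ _ _) ∘L (commClosure A).mkQL) (n + 1) + cob χ)
      rw [← k2, hg, ContinuousLinearMap.opNorm_zero, mul_zero, norm_le_zero_iff] at k3
      exact DFunLike.congr_fun (uniq hΛ HH (comp_trace (g ∘L .inl ℂ _ _)) _ hn
        ⟨-χ, neg_mem (mem_cyc.2 k1), (map_neg _ _).trans (eq_neg_of_add_eq_zero_left k3).symm⟩) a

include hΛ bb HH in
theorem hom_even (hn : Even n) : Nonempty (CyclicHomology A n ≃L[ℂ] A ⧸ commClosure A) := by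
  have e1 : ev n = 1 := if_pos hn
  obtain ⟨C, hC, h⟩ := hom_ctrl hΛ bb HH hn
  let P : CycChain A n →L[ℂ] A ⧸ commClosure A :=
    Submodule.liftQL _ ((commClosure A).mkQL ∘L lin (prodM A n)) fun x hx =>
      (Submodule.Quotient.mk_eq_zero _).2 (mem_comm.2 fun τ hτ =>
        (DFunLike.congr_fun (lin_tr τ) x).symm.trans (lin_cyc (mem_cyc.1 (tr_mem hτ hn).1) hx))
  have : IsClosed (commClosure A : Set A) := Submodule.isClosed_topologicalClosure _
  let T : CyclicHomology A n →L[ℂ] A ⧸ commClosure A :=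
    Submodule.liftQL _ (P ∘L (cycles A n).subtypeL) fun z hz =>
      (LinearMap.range (cycBd A n)).topologicalClosure_minimal (t := P.ker) (by
        rintro _ ⟨y, rfl⟩
        obtain ⟨x, rfl⟩ := Submodule.Quotient.mk_surjective _ y
        refine (Submodule.Quotient.mk_eq_zero _).2 (mem_comm.2 fun τ hτ => ?_)
        change ((τ ∘L lin (prodM A n)) ∘L bd A n) x = 0
        rw [← lin_tr, ← lin_cob, show cob (tr τ n) = 0 from (tr_mem hτ hn).2, lin_zero]
        rfl) P.isClosed_ker hz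
  refine equiv_quot (V := CycChain A n) (F := A ⧸ commClosure A) _ _ T (fun ⟨z, hz⟩ h0 => ?_)
    (C := C) fun y ε hε => ?_
  · obtain ⟨x, rfl⟩ := Submodule.Quotient.mk_surjective _ z
    refine hom_mem hΛ bb HH hz fun τ hτ => ?_
    rw [e1, one_smul, lin_tr]
    exact mem_comm.1 ((Submodule.Quotient.mk_eq_zero _).1 h0) τ hτ
  · obtain ⟨a, rfl, h1⟩ := Submodule.Quotient.norm_mk_lt y hε
    obtain ⟨x, h2, h3, h4⟩ := h a
    exact ⟨⟨_, h2⟩, (Submodule.Quotient.eq _).2 h3, (Submodule.Quotient.norm_mk_le _ x).trans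
      (h4.trans (mul_le_mul_of_nonneg_left h1.le hC))⟩

include hΛ bb HH in
theorem trace_desc_gen : TraceDescription A := fun _ =>
  ⟨fun hn => ⟨coh_even hΛ bb HH hn, hom_even hΛ bb HH hn⟩,
    fun hn => ⟨coh_odd hΛ bb HH hn, hom_odd hΛ bb HH hn⟩⟩

end

end Pool.Agent.Lib.MP_08bba9_an.NU
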