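import Pool.Agent.Lib.MP_08bba9_an.N.Mix
import Pool.Agent.Lib.MP_08bba9_an.Conv

/-! Passage from the unitisation to an algebra that need not have a unit. -/

noncomputable section

namespace Pool.Agent.Lib.MP_08bba9_an.NU

open Fin

theorem face_map {A B : Type*} [Mul A] [Mul B] {n : ℕ} (j : A → B)
    (hj : ∀ a b, j (a * b) = j a * j b) (i : Fin (n + 2)) (a : Fin (n + 2) → A) :
    face i (fun k => j (a k)) = fun k => j (face i a k) := by
  funext k
  unfold face
  split_ifs
  · refine Fin.cases ?_ (fun k => ?_) k <;> simp [hj]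
  · unfold contractNth
    split_ifs <;> simp [hj]

theorem face_pair {B : Type*} [Monoid B] {n : ℕ} (x : Fin (n + 2) → B) (k : Fin (n + 1))
    (h : x k.succ = 1) : face k.castSucc x = face k.succ x := by
  funext m
  rw [face_castSucc]
  refine Fin.lastCases (motive := fun k : Fin (n + 1) => x k.succ = 1 →
    contractNth k.castSucc (· * ·) x m = face k.succ x m) (fun h => ?_) (fun k h => ?_) k h
  · rw [succ_last] at h ⊢
    rw [face_last, h, one_mul]
    have e : (cons (x 0) fun k : Fin n => x k.succ.castSucc : Fin (n + 1) → B) m = x m.castSucc := by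
      refine Fin.cases ?_ (fun m => ?_) m <;> simp
    rw [e]
    refine Fin.lastCases ?_ (fun m => ?_) m
    · rw [contractNth_apply_of_eq _ _ _ _ (by simp), succ_last, h, mul_one]
    · rw [contractNth_apply_of_lt _ _ _ _ (by simp)]
  · rw [succ_castSucc] at h ⊢
    rw [face_castSucc]
    rcases lt_trichotomy (m : ℕ) k with hm | hm | hm
    · rw [contractNth_apply_of_lt _ _ _ _ (by simpa using hm),
        contractNth_apply_of_lt _ _ _ _ (by simp; omega)]
    · rw [contractNth_apply_of_eq _ _ _ _ (by simpa using hm),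
        contractNth_apply_of_lt _ _ _ _ (by simp; omega),
        show m.succ = k.succ.castSucc from Fin.ext (by simpa using hm), h, mul_one]
    · rw [contractNth_apply_of_gt _ _ _ _ (by simpa using hm)]
      rcases (Nat.succ_le_of_lt hm).eq_or_lt with hm' | hm'
      · rw [contractNth_apply_of_eq _ _ _ _ (by simp; omega),
          show m.castSucc = k.succ.castSucc from Fin.ext (by simp; omega), h, one_mul]
      · rw [contractNth_apply_of_gt _ _ _ _ (by simp; omega)]

theorem face_other {B : Type*} [Monoid B] {n : ℕ} (x : Fin (n + 2) → B) (k : Fin (n + 1))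
    (h : x k.succ = 1) (c : Fin (n + 2)) (h1 : c ≠ k.castSucc) (h2 : c ≠ k.succ) :
    ∃ m : Fin n, face c x m.succ = 1 := by
  have h1' : (c : ℕ) ≠ k := fun e => h1 (Fin.ext e)
  have h2' : (c : ℕ) ≠ k + 1 := fun e => h2 (Fin.ext e)
  have hk := k.is_lt
  have hc := c.is_lt
  rcases lt_or_gt_of_ne h1' with h3 | h3
  · refine ⟨⟨k - 1, by omega⟩, ?_⟩
    rw [face, if_neg (fun e => by simp [e] at h3; omega),
      contractNth_apply_of_gt _ _ _ _ (by simp; omega), ← h]
    exact congrArg x (Fin.ext (by simp; omega))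
  · refine ⟨⟨k, by omega⟩, ?_⟩
    rw [face, ← h]
    split_ifs
    · rw [cons_succ]
      rfl
    · rw [contractNth_apply_of_lt _ _ _ _ (by simp; omega)]
      rfl

theorem cob_norm {B : Type*} [NormedRing B] [NormedAlgebra ℂ B] {n : ℕ}
    (ψ : MP_08bba9_an.Multi B ℂ n) (hψ : ∀ x (m : Fin n), x m.succ = 1 → ψ x = 0)
    (x : Fin (n + 2) → B) (k : Fin (n + 1)) (h : x k.succ = 1) : MP_08bba9_an.cob ψ x = 0 := by
  rw [MP_08bba9_an.cob_apply, Fintype.sum_eq_add k.castSucc k.succ (castSucc_lt_succ).ne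
    fun c hc => ?_, face_pair x k h, val_succ, val_castSucc, pow_succ, mul_neg_one, neg_smul,
    add_neg_cancel]
  obtain ⟨m, hm⟩ := face_other x k h c hc.1 hc.2
  rw [hψ _ m hm, smul_zero]

variable {A : Type*} [NonUnitalCStarAlgebra A] {n : ℕ}

variable (A) in
/-- the inclusion in the unitisation -/
def inrL : A →L[ℂ] Unitization ℂ A :=
  ⟨Unitization.inrHom ℂ ℂ A, Unitization.continuous_inr⟩

variable (A) in
/-- the projection of the unitisation on the algebra -/
def sndL : Unitization ℂ A →L[ℂ] A := ⟨Unitization.sndHom ℂ ℂ A, Unitization.continuous_snd⟩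

variable (A) in
/-- the character of the unitisation -/
def fstL : Unitization ℂ A →L[ℂ] ℂ :=
  ⟨(Unitization.fstHom ℂ A).toLinearMap, Unitization.continuous_fst⟩

@[simp] theorem inrL_apply (a : A) : inrL A a = (a : Unitization ℂ A) := rfl

@[simp] theorem sndL_apply (x : Unitization ℂ A) : sndL A x = x.snd := rfl

@[simp] theorem fstL_apply (x : Unitization ℂ A) : fstL A x = x.fst := rfl

/-- restriction of a cochain of the unitisation -/
def res (ψ : MP_08bba9_an.Multi (Unitization ℂ A) ℂ n) : Multi A ℂ n :=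
  ψ.compContinuousLinearMap fun _ => inrL A

/-- extension by zero -/
def ext0 (φ : Multi A ℂ n) : MP_08bba9_an.Multi (Unitization ℂ A) ℂ n :=
  φ.compContinuousLinearMap fun _ => sndL A

theorem res_apply (ψ : MP_08bba9_an.Multi (Unitization ℂ A) ℂ n) (a : Fin (n + 1) → A) :
    res ψ a = ψ fun k => (a k : Unitization ℂ A) := rfl

theorem ext0_apply (φ : Multi A ℂ n) (x : Fin (n + 1) → Unitization ℂ A) :
    ext0 φ x = φ fun k => (x k).snd := rfl

theorem res_ext0 (φ : Multi A ℂ n) : res (ext0 φ) = φ := by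
  ext a
  rfl

theorem cob_res (ψ : MP_08bba9_an.Multi (Unitization ℂ A) ℂ n) :
    cob (res ψ) = res (MP_08bba9_an.cob ψ) := by
  ext a
  rw [cob_apply, res_apply, MP_08bba9_an.cob_apply]
  refine Finset.sum_congr rfl fun i _ => ?_
  rw [res_apply, face_map (fun a : A => (a : Unitization ℂ A)) (Unitization.inr_mul ℂ)]

theorem bb {A : Type*} [NonUnitalCStarAlgebra A] (n : ℕ) (φ : Multi A ℂ n) : cob (cob φ) = 0 := by
  rw [← res_ext0 φ, cob_res, cob_res, cob_cob]
  rfl

/-- the extension of a cochain along a mixed unit in the first variable -/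
def ext1 (Λ : (A →L[ℂ] ℂ) →L[ℂ] ℂ) (φ : Multi A ℂ (n + 1)) :
    MP_08bba9_an.Multi (Unitization ℂ A) ℂ (n + 1) :=
  ext0 φ + ((fstL A).smulRight (ext0 (con Λ φ))).uncurryLeft

theorem ext1_cons (Λ : (A →L[ℂ] ℂ) →L[ℂ] ℂ) (φ : Multi A ℂ (n + 1)) (y : Unitization ℂ A)
    (x : Fin (n + 1) → Unitization ℂ A) : ext1 Λ φ (cons y x) =
      φ (cons y.snd fun k => (x k).snd) + y.fst * con Λ φ fun k => (x k).snd := by
  have : (fun k => (cons y x : Fin (n + 2) → Unitization ℂ A) k |>.snd) =
      cons y.snd fun k => (x k).snd := by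
    funext k
    refine Fin.cases ?_ (fun k => ?_) k <;> rfl
  rw [ext1, _root_.add_apply, ext0_apply, this]
  rfl

theorem ext1_inr (Λ : (A →L[ℂ] ℂ) →L[ℂ] ℂ) (φ : Multi A ℂ (n + 1)) (b : A) (a : Fin (n + 1) → A) :
    ext1 Λ φ (cons (b : Unitization ℂ A) fun k => (a k : Unitization ℂ A)) = φ (cons b a) := by
  rw [ext1_cons]
  simp

theorem ext1_one (Λ : (A →L[ℂ] ℂ) →L[ℂ] ℂ) (φ : Multi A ℂ (n + 1)) (a : Fin (n + 1) → A) :
    ext1 Λ φ (cons 1 fun k => (a k : Unitization ℂ A)) = Λ (hd φ a) := by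
  rw [ext1_cons, Unitization.snd_one, φ.map_coord_zero 0 rfl, ← con_apply]
  simp

theorem res_ext1 (Λ : (A →L[ℂ] ℂ) →L[ℂ] ℂ) (φ : Multi A ℂ (n + 1)) : res (ext1 Λ φ) = φ := by
  ext a
  rw [res_apply, ← cons_self_tail a, ← ext1_inr Λ]
  congr 1
  funext k
  refine Fin.cases ?_ (fun k => ?_) k <;> rfl

theorem ext1_norm (Λ : (A →L[ℂ] ℂ) →L[ℂ] ℂ) (φ : Multi A ℂ (n + 1))
    (x : Fin (n + 2) → Unitization ℂ A) (m : Fin (n + 1)) (h : x m.succ = 1) : ext1 Λ φ x = 0 := by
  have e : (tail x m).snd = 0 := by rw [tail, h, Unitization.snd_one]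
  rw [← cons_self_tail x, ext1_cons, φ.map_coord_zero m.succ e, (con Λ φ).map_coord_zero m e]
  simp

theorem ext1_face {Λ : (A →L[ℂ] ℂ) →L[ℂ] ℂ} (hΛ : Mix Λ) (φ : Multi A ℂ (n + 1))
    (a : Fin (n + 2) → A) (i : Fin (n + 3)) :
    ext1 Λ φ (face i (cons 1 fun k => (a k : Unitization ℂ A))) = Λ (hd (faceMap i φ) a) := by
  refine Fin.lastCases ?_ (fun i => ?_) i
  · have e : hd (faceMap (last _) φ) a =
        hd φ (init a) ∘L ContinuousLinearMap.mul ℂ A (a (last _)) := by
      ext e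
      rw [hd_apply, faceMap_apply, face_last]
      rfl
    rw [e, (hΛ _ _).1, hd_apply, ← ext1_inr Λ, face_last, ← succ_last, cons_succ, cons_zero, mul_one]
    rfl
  · refine Fin.cases ?_ (fun i => ?_) i
    · have e : hd (faceMap (castSucc 0) φ) a =
          hd φ (tail a) ∘L (ContinuousLinearMap.mul ℂ A).flip (a 0) := by
        ext e
        rw [hd_apply, faceMap_apply, face_castSucc, castSucc_zero, contract_zero]
        rfl
      rw [e, (hΛ _ _).2, hd_apply, ← ext1_inr Λ, face_castSucc, castSucc_zero, contract_zero, one_mul]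
      rfl
    · have e : hd (faceMap i.succ.castSucc φ) a = hd φ (contractNth i.castSucc (· * ·) a) := by
        ext e
        rw [hd_apply, faceMap_apply, face_castSucc, ← succ_castSucc, contract_succ, hd_apply]
      rw [e, ← ext1_one, face_castSucc, ← succ_castSucc, contract_succ, ← face_castSucc,
        face_map (fun a : A => (a : Unitization ℂ A)) (Unitization.inr_mul ℂ), face_castSucc]

theorem cob_ext1 {Λ : (A →L[ℂ] ℂ) →L[ℂ] ℂ} (hΛ : Mix Λ) {φ : Multi A ℂ (n + 1)} (h : cob φ = 0) :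
    MP_08bba9_an.cob (ext1 Λ φ) = 0 := by
  let g : Option A → Unitization ℂ A := fun o => o.elim 1 (↑)
  have hg : Submodule.span ℂ (Set.range g) = ⊤ := eq_top_iff.2 fun x _ => by
    rw [← Unitization.inl_fst_add_inr_snd_eq x]
    refine add_mem ?_ (Submodule.subset_span ⟨some _, rfl⟩)
    have : (Unitization.inl x.fst : Unitization ℂ A) = x.fst • g none := by
      ext <;> simp [g]
    rw [this]
    exact Submodule.smul_mem _ _ (Submodule.subset_span ⟨none, rfl⟩)
  refine ContinuousMultilinearMap.toMultilinearMap_injective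
    (MultilinearMap.ext_of_span_eq_top (g := fun _ => g) (fun _ => hg) fun o => ?_)
  change MP_08bba9_an.cob (ext1 Λ φ) (fun i => g (o i)) = 0
  by_cases h1 : ∃ k : Fin (n + 2), o k.succ = none
  · obtain ⟨k, hk⟩ := h1
    exact cob_norm _ (ext1_norm Λ φ) _ k (by rw [hk]; rfl)
  have h2 : ∀ k : Fin (n + 2), ∃ a, o k.succ = some a := fun k =>
    Option.ne_none_iff_exists'.1 fun e => h1 ⟨k, e⟩
  choose a ha using h2
  have e : (fun i => g (o i)) = cons (g (o 0)) fun k => (a k : Unitization ℂ A) := by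
    funext k
    refine Fin.cases rfl (fun k => ?_) k
    rw [ha]
    rfl
  rw [e]
  cases o 0 with
  | none =>
    have e2 : hd (cob φ) a = ∑ i : Fin (n + 3), (-1 : ℂ) ^ (i : ℕ) • hd (faceMap i φ) a := by
      ext e
      simp [cob_apply]
    have e3 := congrArg Λ e2
    rw [h, show hd (0 : Multi A ℂ (n + 2)) a = 0 from rfl, map_zero, map_sum] at e3
    rw [MP_08bba9_an.cob_apply, e3]
    exact Finset.sum_congr rfl fun i _ => by rw [map_smul, ← ext1_face hΛ]; rfl
  | some b =>
    have e2 := DFunLike.congr_fun (cob_res (ext1 Λ φ)) (cons b a)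
    rw [res_ext1, h, res_apply] at e2
    refine Eq.trans (congrArg _ (funext fun k => ?_)) e2.symm
    refine Fin.cases ?_ (fun k => ?_) k <;> rfl

theorem hh_plus {A : Type*} [NonUnitalCStarAlgebra A]
    (H : ∀ n (φ : MP_08bba9_an.Multi (Unitization ℂ A) ℂ (n + 1)), MP_08bba9_an.cob φ = 0 →
      ∃ χ, MP_08bba9_an.cob χ = φ) :
    ∀ n (φ : Multi A ℂ (n + 1)), cob φ = 0 → ∃ χ, cob χ = φ := fun n φ h => by
  obtain ⟨Λ, hΛ⟩ := ex_mix A
  obtain ⟨χ, hχ⟩ := H n _ (cob_ext1 hΛ h)
  exact ⟨res χ, by rw [cob_res, hχ, res_ext1]⟩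

end Pool.Agent.Lib.MP_08bba9_an.NU
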