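import Pool.Agent.Lib.MP_08bba9_an.N.StmtIff
import Pool.Agent.Lib.MP_08bba9_an.N.Plus

/-! The trace description of every C*-algebra follows from the vanishing of the Hochschild groups
of the unital ones. -/

namespace Pool.Agent.Lib.MP_08bba9_an

universe u

theorem final
    (HH : ∀ (B : Type u) [CStarAlgebra B] (n : ℕ) (φ : Multi B ℂ (n + 1)), cob φ = 0 →
      ∃ χ : Multi B ℂ n, cob χ = φ)
    (A : Type u) [NonUnitalCStarAlgebra A] : NS.TraceDescription A := by
  obtain ⟨Λ, hΛ⟩ := NU.ex_mix A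
  exact (NU.ns_traceDescription_iff A).2
    (NU.trace_desc_gen hΛ NU.bb (NU.hh_plus (HH (Unitization ℂ A))))

end Pool.Agent.Lib.MP_08bba9_an
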