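import Pool.Agent.Lib.MP_08bba9_an.N.Defs

/-! A mixed unit in the bidual, and the contraction of a cochain in its first variable. -/

noncomputable section

namespace Pool.Agent.Lib.MP_08bba9_an.NU

open Fin Filter Topology

section general

variable {A : Type*} [NonUnitalNormedRing A] [NormedSpace ℂ A] [IsScalarTower ℂ A A]
  [SMulCommClass ℂ A A] {n : ℕ}

/-- a mixed unit of the bidual -/
def Mix (Λ : (A →L[ℂ] ℂ) →L[ℂ] ℂ) : Prop := ∀ (g : A →L[ℂ] ℂ) (x : A),
  Λ (g ∘L ContinuousLinearMap.mul ℂ A x) = g x ∧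
    Λ (g ∘L (ContinuousLinearMap.mul ℂ A).flip x) = g x

/-- the functional `e ↦ ω (e, a)` -/
def hd (ω : Multi A ℂ (n + 1)) (a : Fin (n + 1) → A) : A →L[ℂ] ℂ :=
  ω.curryLeft.flipMultilinear a

omit [IsScalarTower ℂ A A] [SMulCommClass ℂ A A] in
@[simp] theorem hd_apply (ω : Multi A ℂ (n + 1)) (a : Fin (n + 1) → A) (e : A) :
    hd ω a e = ω (cons e a) := rfl

/-- the contraction of the first variable against an element of the bidual -/
def con (Λ : (A →L[ℂ] ℂ) →L[ℂ] ℂ) (ω : Multi A ℂ (n + 1)) : Multi A ℂ n :=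
  Λ.compContinuousMultilinearMap ω.curryLeft.flipMultilinear

omit [IsScalarTower ℂ A A] [SMulCommClass ℂ A A] in
theorem con_apply (Λ : (A →L[ℂ] ℂ) →L[ℂ] ℂ) (ω : Multi A ℂ (n + 1)) (a : Fin (n + 1) → A) :
    con Λ ω a = Λ (hd ω a) := rfl

theorem ex_mix_of (l : Filter A) (hl : l.IsApproximateUnit) (hb : ∀ᶠ e in l, ‖e‖ ≤ 1) :
    ∃ Λ : (A →L[ℂ] ℂ) →L[ℂ] ℂ, Mix Λ := by
  have := hl.neBot
  let U := Ultrafilter.of l
  have hU : (U : Filter A) ≤ l := Ultrafilter.of_le l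
  have h1 : ∀ g : A →L[ℂ] ℂ, ∃ c ∈ Metric.closedBall (0 : ℂ) ‖g‖,
      Tendsto (fun e => g e) U (𝓝 c) := fun g => by
    refine (isCompact_closedBall (0 : ℂ) ‖g‖).ultrafilter_le_nhds (U.map fun e => g e) ?_
    rw [le_principal_iff, Ultrafilter.coe_map, mem_map]
    filter_upwards [hU hb] with e he
    rw [Set.mem_preimage, mem_closedBall_zero_iff]
    exact (g.le_opNorm e).trans (mul_le_of_le_one_right (norm_nonneg _) he)
  choose c h2 h3 using h1
  let Λ₀ : (A →L[ℂ] ℂ) →ₗ[ℂ] ℂ :=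
    { toFun := c
      map_add' := fun f g => tendsto_nhds_unique (h3 (f + g)) ((h3 f).add (h3 g))
      map_smul' := fun a f => tendsto_nhds_unique (h3 (a • f)) ((h3 f).const_smul a) }
  refine ⟨Λ₀.mkContinuous 1 fun g => by simpa [Λ₀] using h2 g, fun g x => ⟨?_, ?_⟩⟩
  · exact tendsto_nhds_unique (h3 _)
      ((g.continuous.tendsto x).comp ((hl.tendsto_mul_left x).mono_left hU))
  · exact tendsto_nhds_unique (h3 _)
      ((g.continuous.tendsto x).comp ((hl.tendsto_mul_right x).mono_left hU))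

end general

theorem ex_mix (A : Type*) [NonUnitalCStarAlgebra A] : ∃ Λ : (A →L[ℂ] ℂ) →L[ℂ] ℂ, Mix Λ := by
  let _ := CStarAlgebra.spectralOrder A
  have := CStarAlgebra.spectralOrderedRing A
  have h := CStarAlgebra.increasingApproximateUnit A
  exact ex_mix_of _ h.toIsApproximateUnit h.eventually_norm

end Pool.Agent.Lib.MP_08bba9_an.NU
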