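import Pool.Agent.Lib.MP_08bba9_an.N.Defs

/-! Banach cyclic cohomology and homology and the trace description of a normed algebra that need
not have a unit. All the definitions used by the statement are in this file. -/

noncomputable section

namespace Pool.Agent.Lib.MP_08bba9_an.NS

open scoped TensorProduct

section linear

variable {V W : Type*} [SeminormedAddCommGroup V] [NormedSpace ℂ V] [SeminormedAddCommGroup W]
  [NormedSpace ℂ W]

/-- The set of vectors with the property `P` is a linear subspace. -/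
structure IsSubspace (P : V → Prop) : Prop where
  zero : P 0
  add : ∀ x y, P x → P y → P (x + y)
  smul : ∀ (c : ℂ) x, P x → P (c • x)

/-- The linear subspace of the vectors with the property `P`. -/
def IsSubspace.sub {P : V → Prop} (h : IsSubspace P) : Submodule ℂ V where
  carrier := {x | P x}
  add_mem' := h.add _ _
  zero_mem' := h.zero
  smul_mem' := h.smul

/-- The kernel of `d`. -/
def kernel (d : V →ₗ[ℂ] W) : Submodule ℂ V := LinearMap.ker d

/-- The vectors of `C` killed by `d`. -/
def kerIn (C : Submodule ℂ V) (d : V →ₗ[ℂ] W) : Submodule ℂ V := C ⊓ LinearMap.ker d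

/-- The image of `C` under `d`. -/
def image (C : Submodule ℂ V) (d : V →ₗ[ℂ] W) : Submodule ℂ W := C.map d

/-- The closure of the range of `d`. -/
def closedRange (d : V →ₗ[ℂ] W) : Submodule ℂ W := (LinearMap.range d).topologicalClosure

/-- The range of `1 - t`. -/
def rangeOneSub (t : V →L[ℂ] V) : Submodule ℂ V := (1 - t).range

/-- The quotient `Z / (B ∩ Z)` with the quotient topology. -/
abbrev SubQuot (Z B : Submodule ℂ V) := Z ⧸ B.submoduleOf Z

/-- The quotient `Z / (B ∩ Z)` is topologically isomorphic to `X` if `n` is even and is zero if `n`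
is odd. -/
def Alternates (n : ℕ) (Z B : Submodule ℂ V) (X : Type*) [SeminormedAddCommGroup X]
    [NormedSpace ℂ X] : Prop :=
  (Even n → Nonempty (SubQuot Z B ≃L[ℂ] X)) ∧ (Odd n → Subsingleton (SubQuot Z B))

/-- The quotient space `V / R` with the quotient seminorm. -/
def Quo (R : Submodule ℂ V) := V ⧸ R

instance quoGroup (R : Submodule ℂ V) : SeminormedAddCommGroup (Quo R) :=
  Submodule.Quotient.seminormedAddCommGroup R

instance quoSpace (R : Submodule ℂ V) : NormedSpace ℂ (Quo R) :=
  Submodule.Quotient.normedSpace R ℂ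

/-- The operator `b` maps `R` into `S`. -/
def MapsInto (b : V →L[ℂ] W) (R : Submodule ℂ V) (S : Submodule ℂ W) : Prop :=
  R ≤ S.comap b.toLinearMap

/-- The map `V / R → W / S` induced by `b`. -/
def MapsInto.quo {b : V →L[ℂ] W} {R : Submodule ℂ V} {S : Submodule ℂ W} (h : MapsInto b R S) :
    Quo R →ₗ[ℂ] Quo S :=
  R.mapQ S b.toLinearMap h

/-- The canonical map of a seminormed space to its completion. -/
def toCompl : V →L[ℂ] UniformSpace.Completion V := UniformSpace.Completion.toComplL

/-- The extension of a bounded operator to the completion. -/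
def ofCompl {F : Type*} [NormedAddCommGroup F] [NormedSpace ℂ F] [CompleteSpace F]
    (L : V →L[ℂ] F) : UniformSpace.Completion V →L[ℂ] F :=
  L.fromCompletion

/-- The value of a linear isometry. -/
def isoAt (e : V ≃ₗᵢ[ℂ] W) (x : V) : W := e x

end linear

section tensor

variable {ι : Type} [Fintype ι] (M : ι → Type*) [∀ i, SeminormedAddCommGroup (M i)]
  [∀ i, NormedSpace ℂ (M i)]

/-- The algebraic tensor product with the projective seminorm. -/
def PreTensor := ⨂[ℂ] i, M i

instance preGroup : SeminormedAddCommGroup (PreTensor M) :=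
  PiTensorProduct.instSeminormedAddCommGroup

instance preSpace : NormedSpace ℂ (PreTensor M) := PiTensorProduct.instNormedSpace

/-- The completed projective tensor product of a finite family of normed spaces. -/
def Tensor := UniformSpace.Completion (PreTensor M)

instance tensorGroup : NormedAddCommGroup (Tensor M) :=
  UniformSpace.Completion.instNormedAddCommGroup _

instance tensorSpace : NormedSpace ℂ (Tensor M) := UniformSpace.Completion.instNormedSpace _ _

instance tensorComplete : CompleteSpace (Tensor M) := UniformSpace.Completion.completeSpace _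

/-- The canonical multilinear map `(aᵢ) ↦ ⨂ aᵢ`. -/
def tens : ContinuousMultilinearMap ℂ M (Tensor M) :=
  (toCompl (V := PreTensor M)).compContinuousMultilinearMap (PiTensorProduct.tprodL ℂ)

variable {M} in
/-- The bounded operator on the tensor product defined by a bounded multilinear map. -/
def lin {F : Type*} [NormedAddCommGroup F] [NormedSpace ℂ F] [CompleteSpace F]
    (f : ContinuousMultilinearMap ℂ M F) : Tensor M →L[ℂ] F :=
  ofCompl (V := PreTensor M) (isoAt (PiTensorProduct.liftIsometry ℂ M F) f)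

end tensor

section maps

variable {A F : Type*} [NonUnitalNormedRing A] [NormedSpace ℂ A] [IsScalarTower ℂ A A]
  [SMulCommClass ℂ A A] [NormedAddCommGroup F] [NormedSpace ℂ F] {n : ℕ}

/-- The faces `(a₀, …, aᵢaᵢ₊₁, …, aₙ₊₁)` for `i ≤ n`, and `(aₙ₊₁a₀, a₁, …, aₙ)` for `i = n + 1`. -/
def face {A : Type*} [Mul A] (i : Fin (n + 2)) (a : Fin (n + 2) → A) : Fin (n + 1) → A :=
  if i = Fin.last (n + 1) then
    Fin.cons (a (Fin.last (n + 1)) * a 0) fun k : Fin n => a k.succ.castSucc
  else Fin.contractNth i (· * ·) a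

/-- Bounded `(n+1)`-linear maps on `A` with values in `F`. -/
abbrev Multi (A F : Type*) [NonUnitalNormedRing A] [NormedSpace ℂ A] [NormedAddCommGroup F]
    [NormedSpace ℂ F] (n : ℕ) :=
  ContinuousMultilinearMap ℂ (fun _ : Fin (n + 1) => A) F

theorem ex_face (i : Fin (n + 2)) (f : Multi A F n) :
    ∃ g : Multi A F (n + 1), ‖g‖ ≤ ‖f‖ ∧ ∀ a, f (face i a) = g a :=
  NU.ex_face i f

/-- The map `f ↦ f ∘ face i` on bounded multilinear maps. -/
def faceMap (i : Fin (n + 2)) (f : Multi A F n) : Multi A F (n + 1) :=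
  MultilinearMap.mkContinuous
    { toFun := fun a => f (face i a)
      map_update_add' := by
        obtain ⟨g, -, h⟩ := ex_face i f
        simp [h]
      map_update_smul' := by
        obtain ⟨g, -, h⟩ := ex_face i f
        simp [h] }
    ‖f‖ fun a => by
      obtain ⟨g, h1, h⟩ := ex_face i f
      exact (h a).symm ▸ g.le_of_opNorm_le h1 a

/-- The Hochschild coboundary `(b f)(a₀, …, aₙ₊₁) = ∑ (-1)^i f(face i a)`. -/
def cobFun (f : Multi A F n) : Multi A F (n + 1) :=
  ∑ i : Fin (n + 2), (-1 : ℂ) ^ (i : ℕ) • faceMap i f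

/-- The signed cyclic permutation `(t f)(a₀, …, aₙ) = (-1)^n f(aₙ, a₀, …, aₙ₋₁)`. -/
def cycFun (f : Multi A F n) : Multi A F n :=
  (-1 : ℂ) ^ n • f.domDomCongr (finRotate (n + 1)).symm

/-- Cyclicity: `φ(a₁, …, aₙ, a₀) = (-1)^n φ(a₀, …, aₙ)`. -/
def IsCyclic (φ : Multi A ℂ n) : Prop := ∀ a, φ (fun i => a (i + 1)) = (-1) ^ n * φ a

/-- Bounded traces: `f(ab) = f(ba)`. -/
def IsTrace (f : A →L[ℂ] ℂ) : Prop := ∀ a b, f (a * b) = f (b * a)

end maps

variable (A : Type*) [NonUnitalNormedRing A] [NormedSpace ℂ A] [IsScalarTower ℂ A A]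
  [SMulCommClass ℂ A A]

/-- Bounded `(n+1)`-linear functionals on `A` with the operator norm. -/
def Cochain (n : ℕ) := Multi A ℂ n

instance cochainGroup (n : ℕ) : SeminormedAddCommGroup (Cochain A n) :=
  ContinuousMultilinearMap.seminormedAddCommGroup

instance cochainSpace (n : ℕ) : NormedSpace ℂ (Cochain A n) := ContinuousMultilinearMap.normedSpace

theorem cobFun_linear (n : ℕ) : IsLinearMap ℂ (M := Cochain A n) (M₂ := Cochain A (n + 1)) cobFun :=
  ⟨(NU.cob (F := ℂ)).map_add, (NU.cob (F := ℂ)).map_smul⟩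

omit [IsScalarTower ℂ A A] [SMulCommClass ℂ A A] in
theorem isCyclic_sub (n : ℕ) : IsSubspace (V := Cochain A n) IsCyclic :=
  (⟨fun _ => by simp, fun f g hf hg a => by simp [hf a, hg a, mul_add],
    fun c f hf a => by simp [hf a, mul_left_comm c]⟩ : IsSubspace (V := Multi A ℂ n) IsCyclic)

omit [IsScalarTower ℂ A A] [SMulCommClass ℂ A A] in
theorem isTrace_sub : IsSubspace (V := A →L[ℂ] ℂ) IsTrace :=
  ⟨fun _ _ => rfl, fun f g hf hg a b => by simp [hf a b, hg a b],
    fun c f hf a b => by simp [hf a b]⟩

/-- The space `T(A)` of bounded traces. -/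
def Traces : Submodule ℂ (A →L[ℂ] ℂ) := (isTrace_sub A).sub

/-- The norm closure of `[A, A]`. -/
def commClosure : Submodule ℂ A :=
  (Submodule.span ℂ {x | ∃ a b : A, x = a * b - b * a}).topologicalClosure

/-- The Hochschild coboundary as a linear map. -/
def cochainCob (n : ℕ) : Cochain A n →ₗ[ℂ] Cochain A (n + 1) := (cobFun_linear A n).mk' _

/-- Cyclic cochains. -/
def cyclicCochains (n : ℕ) : Submodule ℂ (Cochain A n) := (isCyclic_sub A n).sub

/-- Cyclic cocycles. -/
def cocycles (n : ℕ) : Submodule ℂ (Cochain A n) := kerIn (cyclicCochains A n) (cochainCob A n)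

/-- Cyclic coboundaries. -/
def coboundaries : ∀ n : ℕ, Submodule ℂ (Cochain A n)
  | 0 => ⊥
  | n + 1 => image (cyclicCochains A n) (cochainCob A n)

/-- The completed projective tensor power of `n + 1` copies of `A`. -/
def Chain (n : ℕ) := Tensor fun _ : Fin (n + 1) => A

instance chainGroup (n : ℕ) : NormedAddCommGroup (Chain A n) := tensorGroup _

instance chainSpace (n : ℕ) : NormedSpace ℂ (Chain A n) := tensorSpace _

instance chainComplete (n : ℕ) : CompleteSpace (Chain A n) := tensorComplete _

/-- The canonical multilinear map `(a₀, …, aₙ) ↦ a₀ ⊗ ⋯ ⊗ aₙ`. -/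
def chainTens (n : ℕ) : Multi A (Chain A n) n := tens _

variable {A} in
/-- The bounded operator on the tensor power defined by a bounded multilinear map. -/
def chainLin {F : Type*} [NormedAddCommGroup F] [NormedSpace ℂ F] [CompleteSpace F] {n : ℕ}
    (f : Multi A F n) : Chain A n →L[ℂ] F :=
  lin f

/-- The Hochschild boundary `b`. -/
def bd (n : ℕ) : Chain A (n + 1) →L[ℂ] Chain A n := chainLin (cobFun (chainTens A n))

/-- The range of `1 - t`, with `t(a₀ ⊗ ⋯ ⊗ aₙ) = (-1)^n aₙ ⊗ a₀ ⊗ ⋯ ⊗ aₙ₋₁`. -/
def cycRange (n : ℕ) : Submodule ℂ (Chain A n) := rangeOneSub (chainLin (cycFun (chainTens A n)))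

theorem bd_cycRange (n : ℕ) : MapsInto (bd A n) (cycRange A (n + 1)) (cycRange A n) :=
  NU.bd_cycRange

/-- The predual of the cyclic complex: the tensor power modulo the range of `1 - t`. -/
abbrev CycChain (n : ℕ) := Quo (cycRange A n)

/-- The boundary of the cyclic complex. -/
def cycBd (n : ℕ) : CycChain A (n + 1) →ₗ[ℂ] CycChain A n := (bd_cycRange A n).quo

/-- Cyclic cycles. -/
def cycles : ∀ n : ℕ, Submodule ℂ (CycChain A n)
  | 0 => ⊤
  | n + 1 => kernel (cycBd A n)

/-- The trace description of the cyclic cohomology and of the Hausdorff cyclic homology. -/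
def TraceDescription : Prop := ∀ n : ℕ,
  Alternates n (cocycles A n) (coboundaries A n) (Traces A) ∧
    Alternates n (cycles A n) (closedRange (cycBd A n)) (Quo (commClosure A))

end Pool.Agent.Lib.MP_08bba9_an.NS
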