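import Pool.Agent.Lib.MP_08bba9_an.N.Stmt
import Pool.Agent.Lib.MP_08bba9_an.N.Hom

/-! The short-print definitions agree with the working definitions. -/

namespace Pool.Agent.Lib.MP_08bba9_an.NU

variable (A : Type*) [NonUnitalNormedRing A] [NormedSpace ℂ A] [IsScalarTower ℂ A A]
  [SMulCommClass ℂ A A]

theorem ns_cohomology_iff (n : ℕ) :
    NS.Alternates n (NS.cocycles A n) (NS.coboundaries A n) (NS.Traces A) ↔
      (Even n → Nonempty (CyclicCohomology A n ≃L[ℂ] Traces A)) ∧
        (Odd n → Subsingleton (CyclicCohomology A n)) := by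
  cases n <;> exact Iff.rfl

theorem ns_homology_iff (n : ℕ) :
    NS.Alternates n (NS.cycles A n) (NS.closedRange (NS.cycBd A n)) (NS.Quo (NS.commClosure A)) ↔
      (Even n → Nonempty (CyclicHomology A n ≃L[ℂ] A ⧸ commClosure A)) ∧
        (Odd n → Subsingleton (CyclicHomology A n)) := by
  cases n <;> exact Iff.rfl

theorem ns_traceDescription_iff : NS.TraceDescription A ↔ TraceDescription A := by
  refine forall_congr' fun n => ?_
  rw [ns_cohomology_iff, ns_homology_iff]
  tauto

end Pool.Agent.Lib.MP_08bba9_an.NU
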