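import Pool.Agent.Lib.MP_08bba9_an.N.CycA

/-! Traces as cyclic cochains, and the two chases in the cyclic bicomplex. -/

noncomputable section

namespace Pool.Agent.Lib.MP_08bba9_an.NU

open Fin Finset
open CY (ev sum_ev ev_two ev_sign ev_sq ev_succ prod_contract)

set_option linter.unusedSectionVars false

theorem map_face {A B : Type*} [Mul A] [Mul B] (f : A → B) (hf : ∀ x y, f (x * y) = f x * f y)
    {n : ℕ} (i : Fin (n + 2)) (a : Fin (n + 2) → A) :
    (fun k => f (face i a k)) = face i fun k => f (a k) := by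
  funext k
  unfold face
  split_ifs
  · refine Fin.cases ?_ (fun k => ?_) k <;> simp [hf]
  · unfold contractNth
    split_ifs <;> simp [hf]

variable {A : Type*} [NonUnitalNormedRing A] [NormedSpace ℂ A] [IsScalarTower ℂ A A]
  [SMulCommClass ℂ A A] {n : ℕ}

variable (A) in
/-- the product of `n + 1` elements -/
def prodM : ∀ n : ℕ, Multi A A n
  | 0 => ContinuousMultilinearMap.ofSubsingleton ℂ A A (0 : Fin 1) (ContinuousLinearMap.id ℂ A)
  | n + 1 => faceMap 0 (prodM n)

theorem prodM_zero (a : Fin 1 → A) : prodM A 0 a = a 0 := rfl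

theorem inr_prodM (a : Fin (n + 1) → A) :
    ((prodM A n a : A) : Unitization ℂ A) = (List.ofFn fun i => (a i : Unitization ℂ A)).prod := by
  induction n with
  | zero => simp [prodM_zero]
  | succ n ih =>
    rw [prodM, faceMap_apply, ih, map_face (fun x : A => (x : Unitization ℂ A))
      (Unitization.inr_mul ℂ), ← castSucc_zero, face_castSucc, prod_contract]

theorem prodM_face (i : Fin (n + 1)) (a : Fin (n + 2) → A) :
    prodM A n (face i.castSucc a) = prodM A (n + 1) a := by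
  apply Unitization.inr_injective (R := ℂ)
  rw [inr_prodM, inr_prodM, map_face (fun x : A => (x : Unitization ℂ A))
      (Unitization.inr_mul ℂ), face_castSucc, prod_contract]

/-- the cochain attached to a trace -/
def tr (τ : A →L[ℂ] ℂ) (n : ℕ) : Multi A ℂ n := τ.compContinuousMultilinearMap (prodM A n)

theorem tr_apply (τ : A →L[ℂ] ℂ) (a : Fin (n + 1) → A) : tr τ n a = τ (prodM A n a) := rfl

theorem tr_smul (c : ℂ) (τ : A →L[ℂ] ℂ) : tr (c • τ) n = c • tr τ n := by
  ext a; simp [tr_apply]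

theorem tr_add (σ τ : A →L[ℂ] ℂ) : tr (σ + τ) n = tr σ n + tr τ n := by
  ext a; simp [tr_apply]

theorem tr_sub (σ τ : A →L[ℂ] ℂ) : tr (σ - τ) n = tr σ n - tr τ n := by
  ext a; simp [tr_apply]

section
variable {τ : A →L[ℂ] ℂ} (hτ : τ ∈ Traces A)
include hτ

theorem tr_rot (a : Fin (n + 1) → A) : (tr τ n fun i => a (i - 1)) = tr τ n a := by
  have h : ∀ x y : Unitization ℂ A, τ (x * y).snd = τ (y * x).snd := fun x y => by
    simp only [Unitization.snd_mul, map_add, map_smul]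
    rw [hτ x.snd y.snd]
    ring
  have e : ∀ b : Fin (n + 1) → A,
      tr τ n b = τ (List.ofFn fun i => (b i : Unitization ℂ A)).prod.snd := fun b => by
    rw [← inr_prodM, Unitization.snd_inr, tr_apply]
  rw [e, e, rot_eq (fun i => (a i : Unitization ℂ A)), List.ofFn_succ, List.ofFn_succ' (fun i => (a i : Unitization ℂ A)),
    List.prod_cons, h, List.prod_concat]
  rfl

theorem tr_face (i : Fin (n + 2)) (a : Fin (n + 2) → A) : tr τ n (face i a) = tr τ (n + 1) a := by
  refine Fin.lastCases ?_ (fun i => ?_) i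
  · rw [← face_zero_rot, ← castSucc_zero, tr_apply, prodM_face, ← tr_apply, tr_rot hτ]
  · rw [tr_apply, prodM_face, tr_apply]

theorem cyc_tr : cyc (tr τ n) = (2 * ev n - 1) • tr τ n := by
  ext a
  rw [cyc_apply, tr_rot hτ, ev_sign]
  rfl

theorem cob_tr : cob (tr τ n) = ev (n + 1) • tr τ (n + 1) := by
  ext a
  simp only [cob_apply, tr_face hτ, ← sum_smul, sum_ev]
  rfl

theorem bp_tr : bp (tr τ n) = ev n • tr τ (n + 1) := by
  ext a
  simp only [bp_apply, dp, ← face_castSucc, tr_face hτ, ← sum_smul, sum_ev]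
  rfl

theorem cyc_ev : cyc (ev n • tr τ n) = ev n • tr τ n := by
  rw [map_smul, cyc_tr hτ, smul_smul]
  congr 1
  linear_combination 2 * ev_sq n

theorem cob_ev : cob (ev n • tr τ n) = 0 := by
  rw [map_smul, cob_tr hτ, smul_smul, ev_succ, mul_sub, ev_sq, mul_one, sub_self, zero_smul]

theorem tr_mem (hn : Even n) : tr τ n ∈ cocycles A n := by
  have e1 : ev n = 1 := if_pos hn
  exact ⟨mem_cyc.2 (by simpa [e1] using cyc_ev (n := n) hτ), by simpa [e1] using cob_ev (n := n) hτ⟩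

end

section
variable {Λ : (A →L[ℂ] ℂ) →L[ℂ] ℂ} (hΛ : Mix Λ) (bb : ∀ n (φ : Multi A ℂ n), cob (cob φ) = 0)
  (HH : ∀ n (φ : Multi A ℂ (n + 1)), cob φ = 0 → ∃ χ : Multi A ℂ n, cob χ = φ)

include hΛ bb HH in
theorem key0 (n : ℕ) :
    ∀ φ ∈ cocycles A n, ∃ τ ∈ Traces A, ∃ c : ℂ, φ - c • ev n • tr τ n ∈ coboundaries A n := by
  induction n using Nat.twoStepInduction with
  | zero =>
    intro φ h
    let f := (ContinuousMultilinearMap.ofSubsingleton ℂ A ℂ (0 : Fin 1)).symm φ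
    have e : ∀ a : Fin 1 → A, φ a = f (a 0) := fun a =>
      congrArg φ (funext fun i => congrArg a (Subsingleton.elim _ _))
    have t : f ∈ Traces A := fun a b => by
      have := DFunLike.congr_fun (show cob φ = 0 from h.2) ![a, b]
      rw [cob_apply, Fin.sum_univ_two, e, e] at this
      simpa [face, contractNth, ← sub_eq_add_neg, sub_eq_zero] using this
    refine ⟨f, t, 1, (Submodule.mem_bot ℂ).2 (sub_eq_zero.2 ?_)⟩
    ext a
    simp [e, ev, tr_apply, prodM_zero]
  | one =>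
    intro φ h
    obtain ⟨χ, rfl⟩ := HH 0 φ h.2
    exact ⟨0, zero_mem _, 0, χ,
      mem_cyc.2 (by simpa using LinearMap.congr_fun (cyc_per (n := 0)) χ), by simp⟩
  | more n ih _ =>
    intro φ h
    obtain ⟨χ, rfl⟩ := HH _ φ h.2
    obtain ⟨ψ, hψ⟩ := bp_exact hΛ (ω := χ - cyc χ) (by rw [← cob_cyc, mem_cyc.1 h.1, sub_self])
    obtain ⟨τ, hτ, c, hc⟩ := ih (nm ψ) ⟨mem_cyc.2 (cyc_nm _), by
      rw [SetLike.mem_coe, LinearMap.mem_ker, ← nm_bp, hψ, map_sub, nm_cyc, sub_self]⟩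
    obtain ⟨ψ', h1, h2⟩ : ∃ ψ', bp ψ' = 0 ∧ nm ψ' = nm ψ - c • ev n • tr τ n := by
      cases n with
      | zero => exact ⟨0, map_zero _, by rw [map_zero]; exact ((Submodule.mem_bot ℂ).1 hc).symm⟩
      | succ n =>
        obtain ⟨η, h1, h2⟩ := hc
        refine ⟨bp ((n + 1 : ℂ)⁻¹ • η), bp_bp _, ?_⟩
        rw [nm_bp, map_smul, nm_fix (mem_cyc.1 h1), smul_smul,
          inv_mul_cancel₀ (Nat.cast_add_one_ne_zero n), one_smul, h2]
    obtain ⟨κ, hκ⟩ := ker_nm (f := ψ - ψ' - (c / (n + 1)) • ev n • tr τ n) (by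
      rw [map_sub, map_sub, h2, map_smul, nm_fix (cyc_ev hτ), smul_smul (c / _),
        div_mul_cancel₀ _ (Nat.cast_add_one_ne_zero n)]
      abel)
    have h3 := cob_cyc κ
    rw [hκ, map_sub, map_sub, hψ, h1, map_smul, map_smul, bp_tr hτ] at h3
    refine ⟨τ, hτ, c / (n + 1) * ev n / 2, χ - (c / (n + 1) * ev n / 2) • tr τ (n + 1) - cob κ,
      mem_cyc.2 ?_, ?_⟩
    · rw [map_sub, map_sub, map_smul, cyc_tr hτ, ev_succ]
      linear_combination (norm := module) h3
    · rw [map_sub, map_sub, bb, map_smul, cob_tr hτ, sub_zero]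

include hΛ bb HH in
theorem key (n : ℕ) :
    ∀ φ ∈ cocycles A n, ∃ τ ∈ Traces A, φ - ev n • tr τ n ∈ coboundaries A n := fun φ h => by
  obtain ⟨τ, hτ, c, hc⟩ := key0 hΛ bb HH n φ h
  exact ⟨c • τ, Submodule.smul_mem _ c hτ, by rwa [tr_smul, smul_comm]⟩

include hΛ HH in
theorem uniq {τ : A →L[ℂ] ℂ} (hτ : τ ∈ Traces A) (n : ℕ) :
    Even n → tr τ n ∈ coboundaries A n → τ = 0 := by
  have z : tr τ 0 = 0 → τ = 0 := fun h => by
    ext a
    exact DFunLike.congr_fun h fun _ => a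
  induction n using Nat.twoStepInduction with
  | zero => exact fun _ h => z ((Submodule.mem_bot ℂ).1 h)
  | one => exact fun h => absurd h (by decide)
  | more n ih _ =>
    rintro hn ⟨χ, h1, h2⟩
    have hn' : Even n := by simpa [Nat.even_add] using hn
    have e1 : ev n = 1 := if_pos hn'
    have e2 : ev (n + 1) = 0 := by rw [ev_succ, e1, sub_self]
    obtain ⟨η, hη⟩ := HH n (χ - tr τ (n + 1)) (by
      rw [map_sub, h2, cob_tr hτ, show ev (n + 1 + 1) = 1 from (ev_two n).trans e1, one_smul,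
        sub_self])
    have h3 : bp (η - cyc η + (2 : ℂ) • tr τ n) = 0 := by
      rw [map_add, ← cob_cyc, hη, map_sub, mem_cyc.1 h1, cyc_tr hτ, map_smul, bp_tr hτ, e1, e2]
      module
    have h4 : nm (η - cyc η + (2 : ℂ) • tr τ n) = (2 * (n + 1) : ℂ) • tr τ n := by
      rw [map_add, map_sub, nm_cyc, sub_self, zero_add, map_smul,
        nm_fix (mem_cyc.1 (tr_mem hτ hn').1), smul_smul]
    have h5 : (2 * (n + 1) : ℂ) ≠ 0 := mul_ne_zero two_ne_zero (Nat.cast_add_one_ne_zero n)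
    cases n with
    | zero =>
      rw [bp_inj hΛ h3, map_zero] at h4
      exact z ((smul_eq_zero.1 h4.symm).resolve_left h5)
    | succ n =>
      obtain ⟨ζ, hζ⟩ := bp_exact hΛ h3
      rw [← hζ, nm_bp] at h4
      refine ih hn' ⟨(2 * ((n + 1 : ℕ) + 1) : ℂ)⁻¹ • nm ζ,
        Submodule.smul_mem _ _ (mem_cyc.2 (cyc_nm _)), ?_⟩
      rw [map_smul, h4, smul_smul, inv_mul_cancel₀ h5, one_smul]

end

end Pool.Agent.Lib.MP_08bba9_an.NU
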